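import Pool.Agent.Helper94.SQ.Freeze

/-!
Sums over a dyadic block of denominators.
-/

set_option autoImplicit false

namespace Pool.Agent.Helper94.SQ

open Finset Pool.Agent.Helper112 Pool.Agent.H476R2.Pal

/-- mean values of digit products over the residues modulo `10 ^ J` -/
def Pars : Prop := ∀ (J h : ℕ), 1 ≤ h → ∀ θ : ℕ → ℝ,
  ∑ w ∈ range (10 ^ J), ∏ i ∈ range J, ph (h * (-((w : ℝ) / 10 ^ (i + 1))) + θ i) ≤
    Real.sqrt ((10 : ℝ) ^ J * h)

theorem block_sum (hP : Pars) {J s h H D e : ℕ} (hJ : 1 ≤ J) (hD : 10 ^ (3 * J) ≤ D)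
    (hs : 6 * 10 ^ (2 * s + 1) * H ≤ D ^ 2) (h1 : 1 ≤ h) (hh : h ≤ H) (he : D ≤ e) (w : ℕ → ℕ)
    (hw : ∀ d, d.Coprime 10 → d ^ 2 * w d ≡ 1 [MOD 10 ^ J]) :
    ∑ d ∈ (Ico e (e + 2 ^ (J - 1) * 5 ^ J)).filter (fun d => d.Coprime 10),
      P J s h (w d) d ≤ 4 * Real.sqrt ((10 : ℝ) ^ J * h) + 1 := by
  set B := 2 ^ (J - 1) * 5 ^ J with hB
  have hB2 : 2 * B = 10 ^ J := by
    obtain ⟨r, rfl⟩ : ∃ r, J = r + 1 := ⟨J - 1, by omega⟩
    rw [hB, Nat.add_sub_cancel, ← mul_assoc, ← pow_succ', ← mul_pow]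
    norm_num
  have hB2R : 2 * (B : ℝ) = 10 ^ J := by exact_mod_cast hB2
  set S := (Ico e (e + B)).filter (fun d => d.Coprime 10) with hS
  have hmem : ∀ d ∈ S, (e ≤ d ∧ d < e + B) ∧ d.Coprime 10 := by
    intro d hd
    rw [hS, mem_filter, mem_Ico] at hd
    exact hd
  have hDR : (10 : ℝ) ^ (3 * J) ≤ D := by exact_mod_cast hD
  have hsR : 6 * (10 : ℝ) ^ (2 * s + 1) * H ≤ (D : ℝ) ^ 2 := by exact_mod_cast hs
  have heR : (D : ℝ) ≤ e := by exact_mod_cast he
  have h2 : ∀ d ∈ S, P J s h (w d) d ≤ P J s h (w d % 10 ^ J) e + 2 / 10 ^ J := by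
    intro d hd
    obtain ⟨⟨k1, k2⟩, _⟩ := hmem d hd
    rw [← P_mod]
    have k1' : (e : ℝ) ≤ d := by exact_mod_cast k1
    have k2' : (d : ℝ) ≤ e + B := by exact_mod_cast k2.le
    exact freeze hDR hsR hh heR k1' k2' hB2R
  have hmaps : ∀ d ∈ S, w d % 10 ^ J ∈ range (10 ^ J) := by
    intro d _
    rw [mem_range]
    exact Nat.mod_lt _ (by positivity)
  have h3 : ∑ d ∈ S, P J s h (w d % 10 ^ J) e ≤ 4 * Real.sqrt ((10 : ℝ) ^ J * h) := by
    rw [← sum_fiberwise_of_maps_to hmaps]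
    calc ∑ a ∈ range (10 ^ J), ∑ d ∈ S.filter (fun d => w d % 10 ^ J = a),
          P J s h (w d % 10 ^ J) e
        ≤ ∑ a ∈ range (10 ^ J), 4 * P J s h a e := by
          refine sum_le_sum fun a _ => ?_
          have e1 : ∑ d ∈ S.filter (fun d => w d % 10 ^ J = a), P J s h (w d % 10 ^ J) e =
              ((S.filter (fun d => w d % 10 ^ J = a)).card : ℝ) * P J s h a e := by
            rw [← nsmul_eq_mul, ← sum_const]
            refine sum_congr rfl fun d hd => ?_
            rw [mem_filter] at hd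
            rw [hd.2]
          rw [e1]
          apply mul_le_mul_of_nonneg_right _ (P_nonneg _ _ _ _ _)
          have hJ1 : J - 1 + 1 = J := by omega
          have := four (J - 1) e (S.filter (fun d => w d % 10 ^ J = a)) (by
            intro d hd
            rw [mem_filter] at hd
            rw [hJ1, ← hB]
            exact (hmem d hd.1).1) (by
            intro d hd
            rw [mem_filter] at hd
            exact (hmem d hd.1).2) (by
            intro d hd d' hd'
            rw [mem_filter] at hd hd'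
            rw [hJ1]
            have k1 := hw d (hmem d hd.1).2
            have k2 := hw d' (hmem d' hd'.1).2
            have k3 : w d ≡ w d' [MOD 10 ^ J] := hd.2.trans hd'.2.symm
            have k4 : d ^ 2 ≡ d' ^ 2 [MOD 10 ^ J] := by
              calc d ^ 2 = d ^ 2 * 1 := (mul_one _).symm
                _ ≡ d ^ 2 * (d' ^ 2 * w d') [MOD 10 ^ J] := Nat.ModEq.mul_left _ k2.symm
                _ = d' ^ 2 * (d ^ 2 * w d') := by ring
                _ ≡ d' ^ 2 * (d ^ 2 * w d) [MOD 10 ^ J] :=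
                    Nat.ModEq.mul_left _ (Nat.ModEq.mul_left _ k3.symm)
                _ ≡ d' ^ 2 * 1 [MOD 10 ^ J] := Nat.ModEq.mul_left _ k1
                _ = d' ^ 2 := mul_one _
            have k5 := (Int.natCast_modEq_iff.2 k4.symm).dvd
            push_cast at k5
            exact k5)
          exact_mod_cast this
      _ = 4 * ∑ a ∈ range (10 ^ J), P J s h a e := by rw [mul_sum]
      _ ≤ 4 * Real.sqrt ((10 : ℝ) ^ J * h) := by
          apply mul_le_mul_of_nonneg_left _ (by norm_num)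
          refine le_trans (le_of_eq ?_) (hP J h h1 (fun i => h * (lam s i / (e : ℝ) ^ 2)))
          refine sum_congr rfl fun a _ => ?_
          unfold P
          refine prod_congr rfl fun i _ => ?_
          rw [mul_add]
  calc ∑ d ∈ S, P J s h (w d) d ≤ ∑ d ∈ S, (P J s h (w d % 10 ^ J) e + 2 / 10 ^ J) :=
        sum_le_sum h2
    _ = ∑ d ∈ S, P J s h (w d % 10 ^ J) e + S.card * (2 / 10 ^ J) := by
        rw [sum_add_distrib, sum_const, nsmul_eq_mul]
    _ ≤ 4 * Real.sqrt ((10 : ℝ) ^ J * h) + B * (2 / 10 ^ J) := by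
        apply add_le_add h3
        apply mul_le_mul_of_nonneg_right _ (by positivity)
        have : S.card ≤ B := by
          calc S.card ≤ (Ico e (e + B)).card := card_filter_le _ _
            _ = B := by rw [Nat.card_Ico]; omega
        exact_mod_cast this
    _ = 4 * Real.sqrt ((10 : ℝ) ^ J * h) + 1 := by
        rw [← hB2R]
        have : (B : ℝ) ≠ 0 := by
          have : 0 < B := by positivity
          positivity
        field_simp

theorem blocks (f : ℕ → ℝ) (D B n : ℕ) :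
    ∑ d ∈ Ico D (D + n * B), f d = ∑ j ∈ range n, ∑ d ∈ Ico (D + j * B) (D + j * B + B), f d := by
  induction n with
  | zero => simp
  | succ n ih =>
    rw [sum_range_succ, ← ih, show D + (n + 1) * B = D + n * B + B by ring]
    exact (sum_Ico_consecutive f (by omega) (by omega)).symm

theorem dsum (hP : Pars) {J s h H D : ℕ} (hJ : 1 ≤ J) (hD : 10 ^ (3 * J) ≤ D)
    (hs : 6 * 10 ^ (2 * s + 1) * H ≤ D ^ 2) (h1 : 1 ≤ h) (hh : h ≤ H) (w : ℕ → ℕ)
    (hw : ∀ d, d.Coprime 10 → d ^ 2 * w d ≡ 1 [MOD 10 ^ J]) :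
    ∑ d ∈ (Ico D (2 * D)).filter (fun d => d.Coprime 10), P J s h (w d) d ≤
      15 * D * Real.sqrt h / Real.sqrt (10 ^ J) := by
  set B := 2 ^ (J - 1) * 5 ^ J with hB
  have hB2 : 2 * B = 10 ^ J := by
    obtain ⟨r, rfl⟩ : ∃ r, J = r + 1 := ⟨J - 1, by omega⟩
    rw [hB, Nat.add_sub_cancel, ← mul_assoc, ← pow_succ', ← mul_pow]
    norm_num
  have hB2R : 2 * (B : ℝ) = 10 ^ J := by exact_mod_cast hB2
  have hBpos : 0 < B := by positivity
  have hBR : (0 : ℝ) < B := by exact_mod_cast hBpos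
  have hle : 10 ^ J ≤ D := le_trans (Nat.pow_le_pow_right (by norm_num) (by omega)) hD
  have hleR : (10 : ℝ) ^ J ≤ D := by exact_mod_cast hle
  have hX : (0 : ℝ) < 10 ^ J := by positivity
  set n := D / B + 1 with hn
  have hnB : D ≤ n * B := by
    have g5 := Nat.div_add_mod D B
    have g6 := Nat.mod_lt D hBpos
    rw [hn, add_mul, one_mul, mul_comm (D / B) B]
    omega
  have e1 : ∑ d ∈ (Ico D (2 * D)).filter (fun d => d.Coprime 10), P J s h (w d) d ≤
      ∑ d ∈ Ico D (D + n * B), (if d.Coprime 10 then P J s h (w d) d else 0) := by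
    rw [sum_filter]
    apply sum_le_sum_of_subset_of_nonneg
    · exact Ico_subset_Ico le_rfl (by omega)
    · intro d _ _
      split_ifs
      · exact P_nonneg _ _ _ _ _
      · exact le_rfl
  have e2 : ∑ d ∈ Ico D (D + n * B), (if d.Coprime 10 then P J s h (w d) d else 0) ≤
      n * (4 * Real.sqrt ((10 : ℝ) ^ J * h) + 1) := by
    rw [blocks]
    calc ∑ j ∈ range n, ∑ d ∈ Ico (D + j * B) (D + j * B + B),
          (if d.Coprime 10 then P J s h (w d) d else 0)
        ≤ ∑ _j ∈ range n, (4 * Real.sqrt ((10 : ℝ) ^ J * h) + 1) := by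
          refine sum_le_sum fun j _ => ?_
          rw [← sum_filter]
          exact block_sum hP hJ hD hs h1 hh (by omega) w hw
      _ = _ := by rw [sum_const, card_range, nsmul_eq_mul]
  refine e1.trans (e2.trans ?_)
  have hnR : (n : ℝ) ≤ 3 * D / 10 ^ J := by
    have k1 : ((D / B : ℕ) : ℝ) ≤ D / B := Nat.cast_div_le
    have k2 : (n : ℝ) = ((D / B : ℕ) : ℝ) + 1 := by rw [hn]; push_cast; rfl
    have k3 : (D : ℝ) / B = 2 * D / 10 ^ J := by
      rw [← hB2R]; field_simp
    have k4 : (1 : ℝ) ≤ D / 10 ^ J := by rw [le_div_iff₀ hX]; linarith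
    rw [k2]
    calc ((D / B : ℕ) : ℝ) + 1 ≤ 2 * D / 10 ^ J + D / 10 ^ J := by rw [← k3]; linarith
      _ = _ := by ring
  have hh1 : (1 : ℝ) ≤ h := by exact_mod_cast h1
  have hs1 : 1 ≤ Real.sqrt ((10 : ℝ) ^ J * h) := by
    rw [Real.one_le_sqrt]
    have : (1 : ℝ) ≤ 10 ^ J := one_le_pow₀ (by norm_num)
    nlinarith
  calc (n : ℝ) * (4 * Real.sqrt ((10 : ℝ) ^ J * h) + 1)
      ≤ 3 * D / 10 ^ J * (5 * Real.sqrt ((10 : ℝ) ^ J * h)) := by
        apply mul_le_mul hnR (by linarith) (by positivity) (by positivity)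
    _ = 15 * D * Real.sqrt h / Real.sqrt (10 ^ J) := by
        rw [Real.sqrt_mul hX.le]
        have k1 : (10 : ℝ) ^ J = Real.sqrt (10 ^ J) * Real.sqrt (10 ^ J) :=
          (Real.mul_self_sqrt hX.le).symm
        have k2 : 0 < Real.sqrt ((10 : ℝ) ^ J) := Real.sqrt_pos.2 hX
        generalize Real.sqrt ((10 : ℝ) ^ J) = t at k1 k2 ⊢
        rw [k1]
        field_simp
        ring

end Pool.Agent.Helper94.SQ
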