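import Pool.Agent.Helper94.SQ.Main

/-!
The value of the sum of `μ(d) / d ^ 2` over the integers coprime to `10`.
-/

set_option autoImplicit false

namespace Pool.Agent.Helper94.SQ

open Finset Filter Topology ArithmeticFunction

/-- the terms -/
noncomputable def mt (n : ℕ) : ℝ := (moebius n : ℝ) / (n : ℝ) ^ 2

theorem mt_abs (n : ℕ) : |mt n| ≤ 1 / (n : ℝ) ^ 2 := by
  unfold mt
  rw [abs_div, abs_of_nonneg (by positivity : (0 : ℝ) ≤ (n : ℝ) ^ 2)]
  apply div_le_div_of_nonneg_right _ (by positivity)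
  exact_mod_cast abs_moebius_le_one

theorem mt_summable : Summable mt :=
  Summable.of_norm_bounded (Real.summable_one_div_nat_pow.2 (by norm_num : 1 < 2)) mt_abs

theorem mt_tsum : ∑' n, mt n = 6 / Real.pi ^ 2 := by
  have h1 : LSeries (fun n => ((zeta n : ℕ) : ℂ)) 2 * LSeries (fun n => ((moebius n : ℤ) : ℂ)) 2 = 1 :=
    LSeries_zeta_mul_Lseries_moebius (by norm_num)
  rw [LSeries_zeta_eq_riemannZeta (by norm_num), riemannZeta_two] at h1
  have h2 : LSeries (fun n => ((moebius n : ℤ) : ℂ)) 2 = ((∑' n, mt n : ℝ) : ℂ) := by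
    rw [Complex.ofReal_tsum]
    unfold LSeries
    apply tsum_congr
    intro n
    rw [LSeries.term_def]
    split_ifs with h
    · simp [mt, h]
    · rw [mt]
      push_cast
      congr 1
      norm_cast
  rw [h2] at h1
  have h3 : Real.pi ^ 2 / 6 * ∑' n, mt n = 1 := by exact_mod_cast h1
  have h4 := Real.pi_pos
  rw [eq_div_iff (by positivity)]
  linarith

/-- removing the multiples of a prime -/
theorem remove (p : ℕ) (hp : p.Prime) (χ : ℕ → ℝ) (hχ : ∀ m, χ (p * m) = χ m)
    (hb : ∀ m, |χ m| ≤ 1) :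
    ∑' n, χ n * mt n = (1 - 1 / (p : ℝ) ^ 2) * ∑' n, (if p ∣ n then 0 else χ n * mt n) := by
  have hp0 : (p : ℝ) ≠ 0 := by exact_mod_cast hp.ne_zero
  have hbd : ∀ n, |χ n * mt n| ≤ 1 / (n : ℝ) ^ 2 := by
    intro n
    rw [abs_mul]
    calc |χ n| * |mt n| ≤ 1 * (1 / (n : ℝ) ^ 2) :=
          mul_le_mul (hb n) (mt_abs n) (abs_nonneg _) (by norm_num)
      _ = _ := one_mul _
  have hsum : Summable fun n : ℕ => 1 / (n : ℝ) ^ 2 :=
    Real.summable_one_div_nat_pow.2 (by norm_num : 1 < 2)
  have s1 : Summable fun n => if p ∣ n then 0 else χ n * mt n := by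
    apply Summable.of_norm_bounded hsum
    intro n
    split_ifs
    · rw [norm_zero]; positivity
    · exact hbd n
  have s2 : Summable fun n => if p ∣ n then χ n * mt n else 0 := by
    apply Summable.of_norm_bounded hsum
    intro n
    split_ifs
    · exact hbd n
    · rw [norm_zero]; positivity
  have e1 : ∑' n, χ n * mt n = ∑' n, (if p ∣ n then 0 else χ n * mt n) +
      ∑' n, (if p ∣ n then χ n * mt n else 0) := by
    rw [← s1.tsum_add s2]
    apply tsum_congr
    intro n
    split_ifs <;> ring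
  have e2 : ∑' n, (if p ∣ n then χ n * mt n else 0) = ∑' m, χ (p * m) * mt (p * m) := by
    have hinj : Function.Injective (fun m : ℕ => p * m) := fun a b hab =>
      Nat.eq_of_mul_eq_mul_left hp.pos hab
    have := hinj.tsum_eq (f := fun n => if p ∣ n then χ n * mt n else 0) (by
      intro n hn
      rw [Function.mem_support] at hn
      by_cases h : p ∣ n
      · obtain ⟨m, rfl⟩ := h
        exact ⟨m, rfl⟩
      · rw [if_neg h] at hn
        exact absurd rfl hn)
    rw [← this]
    apply tsum_congr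
    intro m
    rw [if_pos (Dvd.intro m rfl)]
  have e3 : ∑' m, χ (p * m) * mt (p * m) =
      ∑' m, -(1 / (p : ℝ) ^ 2) * (if p ∣ m then 0 else χ m * mt m) := by
    apply tsum_congr
    intro m
    rw [hχ]
    split_ifs with h
    · have : ¬ Squarefree (p * m) := by
        intro hsq
        obtain ⟨k, rfl⟩ := h
        have := hsq p ⟨k, by ring⟩
        exact hp.one_lt.ne' (Nat.isUnit_iff.1 this)
      rw [mt, moebius_eq_zero_of_not_squarefree this]
      simp
    · have hc : p.Coprime m := (Nat.Prime.coprime_iff_not_dvd hp).2 h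
      rw [mt, mt, isMultiplicative_moebius.map_mul_of_coprime hc, moebius_apply_prime hp]
      push_cast
      rw [mul_pow]
      field_simp
  rw [e1, e2, e3, tsum_mul_left]
  ring

/-- the terms with `n` coprime to `10` -/
noncomputable def g (n : ℕ) : ℝ := if n.Coprime 10 then mt n else 0

theorem g_tsum : ∑' n, g n = 25 / (3 * Real.pi ^ 2) := by
  have h1 := remove 2 Nat.prime_two (fun _ => 1) (fun _ => rfl) (by simp)
  have h2 := remove 5 Nat.prime_five (fun n => if 2 ∣ n then 0 else 1) (by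
    intro m
    have : 2 ∣ 5 * m ↔ 2 ∣ m := by omega
    simp only [this]) (by
    intro m
    split_ifs <;> simp)
  simp only [one_mul] at h1
  rw [mt_tsum] at h1
  have e1 : ∀ n : ℕ, (if 2 ∣ n then 0 else mt n) = (if 2 ∣ n then (0 : ℝ) else 1) * mt n := by
    intro n
    split_ifs <;> ring
  rw [tsum_congr e1, h2] at h1
  have e2 : ∀ n : ℕ, (if 5 ∣ n then 0 else (if 2 ∣ n then (0 : ℝ) else 1) * mt n) = g n := by
    intro n
    rw [g]
    have hc : n.Coprime 10 ↔ ¬ 2 ∣ n ∧ ¬ 5 ∣ n := by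
      rw [show (10 : ℕ) = 2 * 5 by norm_num, Nat.coprime_mul_iff_right, Nat.coprime_comm,
        Nat.Prime.coprime_iff_not_dvd Nat.prime_two, Nat.coprime_comm,
        Nat.Prime.coprime_iff_not_dvd Nat.prime_five]
    by_cases h2 : 2 ∣ n <;> by_cases h5 : 5 ∣ n <;> simp [hc, h2, h5]
  rw [tsum_congr e2] at h1
  have h4 := Real.pi_pos
  have h5 : (6 : ℝ) / Real.pi ^ 2 = 18 / 25 * ∑' n, g n := by
    rw [h1]; push_cast; ring
  rw [div_eq_iff (by positivity)] at h5
  rw [eq_div_iff (by positivity)]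
  linarith

theorem g_summable : Summable g := by
  apply Summable.of_norm_bounded (Real.summable_one_div_nat_pow.2 (by norm_num : 1 < 2))
  intro n
  rw [g]
  split_ifs
  · exact mt_abs n
  · rw [norm_zero]; positivity

theorem cst : Cst := by
  intro z hz
  have h1 : Tendsto (fun n => ∑ i ∈ range n, g i) atTop (𝓝 (25 / (3 * Real.pi ^ 2))) := by
    rw [← g_tsum]
    exact g_summable.hasSum.tendsto_sum_nat
  have h2 : ∑ d ∈ (Finset.Icc 1 z).filter (fun d => d.Coprime 10),
      (ArithmeticFunction.moebius d : ℝ) / (d : ℝ) ^ 2 = ∑ i ∈ range (z + 1), g i := by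
    rw [sum_filter]
    have e0 : g 0 = 0 := by simp [g]
    rw [← Nat.Ico_zero_eq_range, sum_eq_sum_Ico_succ_bot (by omega), e0, zero_add]
    have e1 : Icc 1 z = Ico (0 + 1) (z + 1) := by
      ext x; rw [mem_Icc, mem_Ico]; omega
    rw [e1]
    rfl
  rw [h2]
  have h3 : Tendsto (fun n => |∑ i ∈ range (z + 1), g i - ∑ i ∈ range n, g i|) atTop
      (𝓝 |∑ i ∈ range (z + 1), g i - 25 / (3 * Real.pi ^ 2)|) :=
    (tendsto_const_nhds.sub h1).abs
  apply le_of_tendsto h3
  filter_upwards [eventually_ge_atTop (z + 1)] with n hn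
  rw [abs_sub_comm, ← sum_Ico_eq_sub _ hn]
  have h4 : ∀ i ∈ Ico (z + 1) n, |g i| ≤ ((i : ℝ) ^ 2)⁻¹ := by
    intro i _
    rw [g]
    split_ifs
    · have := mt_abs i
      rwa [one_div] at this
    · rw [abs_zero]; positivity
  refine (abs_sum_le_sum_abs _ _).trans ((sum_le_sum h4).trans ?_)
  have h5 := sum_Ioc_inv_sq_le_sub (α := ℝ) (k := z) (n := n - 1) (by omega) (by omega)
  have h6 : Ioc z (n - 1) = Ico (z + 1) n := by
    ext x; rw [mem_Ioc, mem_Ico]; omega
  rw [h6] at h5
  refine h5.trans ?_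
  rw [one_div]
  have : (0 : ℝ) ≤ ((n - 1 : ℕ) : ℝ)⁻¹ := by positivity
  linarith

end Pool.Agent.Helper94.SQ
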