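import Pool.Graph.R_seed8.H476R2.Pal.Defs

/-!
A large sieve type inequality for digit functions.
-/

set_option autoImplicit false

namespace Pool.Agent.Helper94.SQ

open Finset Pool.Agent.Helper112 Pool.Agent.H476R2.Pal

theorem ph_neg (x : ℝ) : ph (-x) = ph x := by
  unfold ph
  congr 1
  rw [← RCLike.norm_conj (∑ m ∈ range 10, ee (m * x)), map_sum]
  congr 1
  refine sum_congr rfl fun m _ => ?_
  rw [ls_conj_ee]
  congr 1
  ring

theorem ph_zero : ph 0 = 1 := by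
  unfold ph
  simp [ls_ee_zero]

/-- the product formula -/
theorem digit_sum {κ : ℕ} (x : Fin κ → ℝ) (θ j : ℝ) :
    ‖∑ m : Fin κ → Fin 10, ee (j * (θ + ∑ i, ((m i : ℕ) : ℝ) * x i))‖ =
      10 ^ κ * ∏ i, ph (j * x i) := by
  have h1 : ∀ m : Fin κ → Fin 10, ee (j * (θ + ∑ i, ((m i : ℕ) : ℝ) * x i)) =
      ee (j * θ) * ∏ i, ee (((m i : ℕ) : ℝ) * (j * x i)) := by
    intro m
    have h2 : ∀ s : Finset (Fin κ), ee (∑ i ∈ s, ((m i : ℕ) : ℝ) * (j * x i)) =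
        ∏ i ∈ s, ee (((m i : ℕ) : ℝ) * (j * x i)) := by
      intro s
      induction s using Finset.induction_on with
      | empty => simp [ls_ee_zero]
      | insert a s ha ih => rw [sum_insert ha, prod_insert ha, ls_ee_add, ih]
    rw [← h2, ← ls_ee_add]
    congr 1
    rw [mul_add, mul_sum]
    congr 1
    refine sum_congr rfl fun i _ => ?_
    ring
  have h3 : ∑ m : Fin κ → Fin 10, ee (j * (θ + ∑ i, ((m i : ℕ) : ℝ) * x i)) =
      ee (j * θ) * ∏ i, ∑ a : Fin 10, ee (((a : ℕ) : ℝ) * (j * x i)) := by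
    simp_rw [h1]
    rw [← mul_sum]
    congr 1
    have := Finset.prod_univ_sum (fun _ : Fin κ => (univ : Finset (Fin 10)))
      (fun i a => ee (((a : ℕ) : ℝ) * (j * x i)))
    rw [this, Fintype.piFinset_univ]
  rw [h3, norm_mul, ls_norm_ee, one_mul, norm_prod]
  have h4 : ∀ i : Fin κ, ‖∑ a : Fin 10, ee (((a : ℕ) : ℝ) * (j * x i))‖ = 10 * ph (j * x i) := by
    intro i
    rw [ph, Fin.sum_univ_eq_sum_range (fun a => ee ((a : ℝ) * (j * x i)))]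
    ring
  rw [prod_congr rfl (fun i _ => h4 i), prod_mul_distrib, prod_const, card_univ, Fintype.card_fin]

theorem double_sum (g : ℕ → ℝ) (hg : ∀ n, 0 ≤ g n) (H : ℕ) (h' : ℕ) (hh' : h' < H) :
    ∑ h ∈ range H, g (Nat.dist h h') ≤ g 0 + 2 * ∑ h ∈ Ico 1 H, g h := by
  have e1 : ∑ h ∈ range (h' + 1), g (Nat.dist h h') = ∑ h ∈ range (h' + 1), g h := by
    rw [← sum_range_reflect]
    refine sum_congr rfl fun h hh => ?_
    rw [mem_range] at hh
    congr 1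
    rw [Nat.dist_eq_sub_of_le (by omega)]
    omega
  have e2 : ∑ h ∈ Ico (h' + 1) H, g (Nat.dist h h') = ∑ h ∈ Ico 1 (H - h'), g h := by
    have : ∑ h ∈ Ico 1 (H - h'), g h = ∑ h ∈ Ico (1 + h') (H - h' + h'), g (h - h') := by
      rw [← sum_Ico_add']
      refine sum_congr rfl fun h _ => ?_
      rw [Nat.add_sub_cancel]
    rw [this, Nat.sub_add_cancel hh'.le, add_comm 1 h']
    refine sum_congr rfl fun h hh => ?_
    rw [mem_Ico] at hh
    congr 1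
    rw [Nat.dist_eq_sub_of_le_right (by omega)]
  have e3 : ∑ h ∈ range H, g (Nat.dist h h') =
      ∑ h ∈ range (h' + 1), g (Nat.dist h h') + ∑ h ∈ Ico (h' + 1) H, g (Nat.dist h h') :=
    (sum_range_add_sum_Ico _ (by omega)).symm
  have e4 : ∑ h ∈ range (h' + 1), g h ≤ g 0 + ∑ h ∈ Ico 1 H, g h := by
    rw [← sum_range_add_sum_Ico g (show 1 ≤ h' + 1 by omega), sum_range_one]
    apply add_le_add_right
    exact sum_le_sum_of_subset_of_nonneg (Ico_subset_Ico le_rfl (by omega)) fun i _ _ => hg i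
  have e5 : ∑ h ∈ Ico 1 (H - h'), g h ≤ ∑ h ∈ Ico 1 H, g h :=
    sum_le_sum_of_subset_of_nonneg (Ico_subset_Ico le_rfl (by omega)) fun i _ _ => hg i
  rw [e3, e1, e2]
  linarith

theorem sieve {κ : ℕ} (x : Fin κ → ℝ) (θ : ℝ) (S : Finset (Fin κ → Fin 10)) (H : ℕ) (hH : 1 ≤ H)
    (hS : ∀ m ∈ S, (H : ℝ) / 2 ≤ ‖∑ h ∈ range H, ee (h * (θ + ∑ i, ((m i : ℕ) : ℝ) * x i))‖) :
    (S.card : ℝ) ≤ 4 * 10 ^ κ / H * (1 + 2 * ∑ h ∈ Ico 1 H, ∏ i, ph (h * x i)) := by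
  have hH0 : (0 : ℝ) < H := by exact_mod_cast hH
  set F : (Fin κ → Fin 10) → ℂ := fun m => ∑ h ∈ range H, ee (h * (θ + ∑ i, ((m i : ℕ) : ℝ) * x i))
    with hF
  set g : ℕ → ℝ := fun h => ∏ i, ph (h * x i) with hg
  have hg0 : ∀ n, 0 ≤ g n := fun n => prod_nonneg fun _ _ => ph_nonneg _
  -- lower bound
  have h1 : (S.card : ℝ) * ((H : ℝ) / 2) ^ 2 ≤ ∑ m : Fin κ → Fin 10, ‖F m‖ ^ 2 := by
    calc (S.card : ℝ) * ((H : ℝ) / 2) ^ 2 = ∑ _m ∈ S, ((H : ℝ) / 2) ^ 2 := by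
          rw [sum_const, nsmul_eq_mul]
      _ ≤ ∑ m ∈ S, ‖F m‖ ^ 2 := by
          refine sum_le_sum fun m hm => ?_
          exact pow_le_pow_left₀ (by positivity) (hS m hm) 2
      _ ≤ _ := sum_le_sum_of_subset_of_nonneg (subset_univ _) fun _ _ _ => by positivity
  -- expansion
  have h2 : ((∑ m : Fin κ → Fin 10, ‖F m‖ ^ 2 : ℝ) : ℂ) =
      ∑ h' ∈ range H, ∑ h ∈ range H, ∑ m : Fin κ → Fin 10,
        ee (((h : ℝ) - h') * (θ + ∑ i, ((m i : ℕ) : ℝ) * x i)) := by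
    have e1 : ∀ m : Fin κ → Fin 10, ((‖F m‖ ^ 2 : ℝ) : ℂ) =
        ∑ h' ∈ range H, ∑ h ∈ range H, ee (((h : ℝ) - h') * (θ + ∑ i, ((m i : ℕ) : ℝ) * x i)) := by
      intro m
      have e2 : ((‖F m‖ ^ 2 : ℝ) : ℂ) = (starRingEnd ℂ) (F m) * F m := by
        rw [Complex.conj_mul']; push_cast; rfl
      rw [e2, hF]
      simp only
      rw [map_sum, sum_mul_sum]
      refine sum_congr rfl fun h' _ => sum_congr rfl fun h _ => ?_
      rw [ls_conj_ee, ← ls_ee_add]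
      congr 1
      ring
    push_cast
    have e3 : ∀ m : Fin κ → Fin 10, ((‖F m‖ : ℂ)) ^ 2 = ((‖F m‖ ^ 2 : ℝ) : ℂ) := by
      intro m; push_cast; rfl
    rw [sum_congr rfl fun m _ => (e3 m).trans (e1 m)]
    rw [sum_comm]
    refine sum_congr rfl fun h' _ => ?_
    rw [sum_comm]
  -- upper bound
  have h3 : ∑ m : Fin κ → Fin 10, ‖F m‖ ^ 2 ≤
      ∑ h' ∈ range H, ∑ h ∈ range H, 10 ^ κ * g (Nat.dist h h') := by
    have e0 : 0 ≤ ∑ m : Fin κ → Fin 10, ‖F m‖ ^ 2 := sum_nonneg fun _ _ => by positivity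
    have e1 : ∑ m : Fin κ → Fin 10, ‖F m‖ ^ 2 =
        ‖((∑ m : Fin κ → Fin 10, ‖F m‖ ^ 2 : ℝ) : ℂ)‖ := by
      rw [Complex.norm_real, Real.norm_of_nonneg e0]
    rw [e1, h2]
    refine (norm_sum_le _ _).trans (sum_le_sum fun h' _ => (norm_sum_le _ _).trans
      (sum_le_sum fun h _ => ?_))
    rw [digit_sum]
    apply le_of_eq
    congr 1
    rw [hg]
    refine prod_congr rfl fun i _ => ?_
    rcases le_total h h' with hh | hh
    · rw [Nat.dist_eq_sub_of_le hh, Nat.cast_sub hh, ← ph_neg]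
      congr 1; ring
    · rw [Nat.dist_eq_sub_of_le_right hh, Nat.cast_sub hh]
  have h4 : ∑ h' ∈ range H, ∑ h ∈ range H, 10 ^ κ * g (Nat.dist h h') ≤
      H * (10 ^ κ * (1 + 2 * ∑ h ∈ Ico 1 H, g h)) := by
    have e1 : g 0 = 1 := by
      rw [hg]; simp [ph_zero]
    calc ∑ h' ∈ range H, ∑ h ∈ range H, 10 ^ κ * g (Nat.dist h h')
        ≤ ∑ _h' ∈ range H, (10 ^ κ * (1 + 2 * ∑ h ∈ Ico 1 H, g h)) := by
          refine sum_le_sum fun h' hh' => ?_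
          rw [← mul_sum]
          apply mul_le_mul_of_nonneg_left _ (by positivity)
          have := double_sum g hg0 H h' (mem_range.1 hh')
          rwa [e1] at this
      _ = _ := by rw [sum_const, card_range, nsmul_eq_mul]
  have h5 := h1.trans (h3.trans h4)
  have h6 : (S.card : ℝ) * (H ^ 2 / 4) ≤ H * (10 ^ κ * (1 + 2 * ∑ h ∈ Ico 1 H, g h)) := by
    calc (S.card : ℝ) * (H ^ 2 / 4) = (S.card : ℝ) * ((H : ℝ) / 2) ^ 2 := by ring
      _ ≤ _ := h5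
  have h7 : 4 * 10 ^ κ / H * (1 + 2 * ∑ h ∈ Ico 1 H, g h) =
      (H * (10 ^ κ * (1 + 2 * ∑ h ∈ Ico 1 H, g h))) / ((H : ℝ) ^ 2 / 4) := by
    field_simp
  rw [h7, le_div_iff₀ (by positivity)]
  exact h6

end Pool.Agent.Helper94.SQ
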