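import Pool.Graph.R_seed8.H861R2.Pal.T11
import Pool.Agent.Helper94.SQ.Sieve

/-!
Palindromes divisible by a large modulus: the counting lemma.
-/

set_option autoImplicit false

namespace Pool.Agent.Helper94.SQ

open Finset Pool.Agent.Helper112 Pool.Agent.H476R2.Pal Pool.Agent.H861R2.Pal

/-- the palindromes with leading digit `l` divisible by `q` -/
def Tc (l L q : ℕ) : ℕ := ((univ : Finset (Fin L → Fin 10)).filter (fun m => q ∣ pvl l L m)).card

/-- the frequencies after reciprocity -/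
noncomputable def lam (s i : ℕ) : ℝ := 1 / 10 ^ (i + 1) + 10 ^ (2 * s + 1 + i)

/-- the inner part of a palindrome -/
def inner (s : ℕ) (m : Fin (s + 1) → Fin 10) : ℕ := ∑ c : Fin (s + 1), (m c : ℕ) * fr s c

theorem inner_eq {s : ℕ} (hs : 1 ≤ s) (m : Fin (s + 1) → Fin 10) :
    inner s m = pvl (m (Fin.last s)) s (fun c => m c.castSucc) := by
  rw [inner, Fin.sum_univ_castSucc, pvl, add_comm]
  congr 1
  rw [Fin.val_last, fr, if_neg (by omega), Nat.sub_self, pow_zero, ← two_mul]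

theorem inner_lt {s : ℕ} (hs : 1 ≤ s) (m : Fin (s + 1) → Fin 10) : inner s m < 10 ^ (2 * s + 1) := by
  rw [inner_eq hs, pvl_ofDigits _ s hs]
  have h1 : ∀ x ∈ lst (m (Fin.last s)) s (fun c => m c.castSucc), x < 10 :=
    lst_lt (by have := (m (Fin.last s)).2; omega) _ _
  have := Nat.ofDigits_lt_base_pow_length (b := 10) (by norm_num) h1
  rwa [lst_length] at this

theorem inner_inj {s : ℕ} (hs : 1 ≤ s) {m m' : Fin (s + 1) → Fin 10} (h : inner s m = inner s m') :
    m = m' := by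
  rw [inner_eq hs, inner_eq hs] at h
  have b1 : (m (Fin.last s) : ℕ) ≤ 9 := by have := (m (Fin.last s)).2; omega
  have b2 : (m' (Fin.last s) : ℕ) ≤ 9 := by have := (m' (Fin.last s)).2; omega
  have h1 := pvl_inj s hs (x₁ := ((m (Fin.last s) : ℕ), fun c => m c.castSucc))
    (x₂ := ((m' (Fin.last s) : ℕ), fun c => m' c.castSucc)) b1 b2 h
  rw [Prod.mk.injEq] at h1
  funext c
  refine Fin.lastCases ?_ (fun c => ?_) c
  · exact Fin.ext h1.1
  · exact congrFun h1.2 c

/-- splitting a palindrome -/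
theorem split {l s κ : ℕ} (m : Fin (s + 1 + κ) → Fin 10) :
    pvl l (s + 1 + κ) m = (l * (10 ^ (2 * (s + 1 + κ)) + 1) +
      ∑ i : Fin κ, (m (Fin.natAdd (s + 1) i) : ℕ) * fr (s + 1 + κ) (s + 1 + i)) +
      10 ^ (κ + 1) * inner s (fun c => m (Fin.castAdd κ c)) := by
  have e0 : ∑ c : Fin (s + 1), (m (Fin.castAdd κ c) : ℕ) * fr (s + 1 + κ) (Fin.castAdd κ c) =
      10 ^ (κ + 1) * inner s (fun c => m (Fin.castAdd κ c)) := by
    rw [inner, mul_sum]
    refine sum_congr rfl fun c _ => ?_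
    have := c.2
    rw [Fin.val_castAdd, fr_scale (L := s + 1 + κ) (M := s) (c := c) (by omega) (by omega)]
    have e1 : s + 1 + κ - s = κ + 1 := by omega
    rw [e1]
    ring
  rw [pvl, Fin.sum_univ_add, e0]
  simp only [Fin.val_natAdd]
  ring

theorem ee_re (x : ℝ) : (ee x).re = Real.cos (2 * Real.pi * x) := by
  unfold ee
  rw [show (2 * Real.pi * x * Complex.I : ℂ) = ((2 * Real.pi * x : ℝ) : ℂ) * Complex.I by
    push_cast; ring]
  rw [Complex.exp_ofReal_mul_I_re]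

theorem half_le (q y H h : ℕ) (hq : 6 * y * H ≤ q) (hq0 : 0 < q) (hh : h < H) :
    1 / 2 ≤ (ee (h * (-((y : ℝ) / q)))).re := by
  rw [ee_re, show 2 * Real.pi * (h * (-((y : ℝ) / q))) = -(2 * Real.pi * (h * y / q)) by ring,
    Real.cos_neg, ← Real.cos_pi_div_three]
  have hq0' : (0 : ℝ) < q := by exact_mod_cast hq0
  have h1 : (h * y / q : ℝ) ≤ 1 / 6 := by
    rw [div_le_iff₀ hq0']
    have h2 : (6 : ℝ) * y * H ≤ q := by exact_mod_cast hq
    have h3 : (h : ℝ) * y ≤ H * y :=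
      mul_le_mul_of_nonneg_right (by exact_mod_cast hh.le) (Nat.cast_nonneg _)
    nlinarith
  apply Real.cos_le_cos_of_nonneg_of_le_pi
  · positivity
  · have := Real.pi_pos; linarith
  · have := Real.pi_pos; nlinarith

theorem count {l s κ q H w : ℕ} (hs : 1 ≤ s) (hq : q.Coprime 10) (hH : 1 ≤ H)
    (hqH : 6 * 10 ^ (2 * s + 1) * H ≤ q) (hw : q * w ≡ 1 [MOD 10 ^ (κ + 1)]) :
    (Tc l (s + 1 + κ) q : ℝ) ≤ 4 * 10 ^ κ / H * (1 + 2 * ∑ h ∈ Ico 1 H,
      ∏ i ∈ range κ, ph (h * (-((w : ℝ) / 10 ^ (i + 1)) + lam s i / q))) := by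
  classical
  set L := s + 1 + κ with hL
  have hqpos : 0 < q := lt_of_lt_of_le (by positivity) hqH
  have hq0 : (0 : ℝ) < q := by exact_mod_cast hqpos
  have hlt : 10 ^ (2 * s + 1) ≤ q := by
    refine le_trans ?_ hqH
    have : 1 ≤ 6 * H := by omega
    calc 10 ^ (2 * s + 1) = 10 ^ (2 * s + 1) * 1 := (mul_one _).symm
      _ ≤ 10 ^ (2 * s + 1) * (6 * H) := Nat.mul_le_mul_left _ this
      _ = _ := by ring
  -- the inverse of `10 ^ (κ + 1)` modulo `q`
  obtain ⟨c, hc⟩ : ∃ c : ℤ, (1 : ℤ) - q * w = c * 10 ^ (κ + 1) := by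
    have h1 : ((q * w : ℕ) : ℤ) ≡ ((1 : ℕ) : ℤ) [ZMOD ((10 ^ (κ + 1) : ℕ) : ℤ)] :=
      Int.natCast_modEq_iff.2 hw
    obtain ⟨c, hc⟩ := h1.dvd
    refine ⟨c, ?_⟩
    push_cast at hc
    rw [hc]; ring
  have hcR : (1 : ℝ) - q * w = c * 10 ^ (κ + 1) := by exact_mod_cast hc
  set x : Fin κ → ℝ := fun i => c * (fr L (s + 1 + i) : ℝ) / q with hx
  set θ : ℝ := c * ((l * (10 ^ (2 * L) + 1) : ℕ) : ℝ) / q with hθ
  -- the set of the outer parts
  set S := ((univ : Finset (Fin L → Fin 10)).filter (fun m => q ∣ pvl l L m)).image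
    (fun m => fun i : Fin κ => m (Fin.natAdd (s + 1) i)) with hS
  have hcard : Tc l L q = S.card := by
    rw [Tc, hS, card_image_of_injOn]
    intro m hm m' hm' h
    rw [mem_coe, mem_filter] at hm hm'
    have h1 : ∀ i : Fin κ, m (Fin.natAdd (s + 1) i) = m' (Fin.natAdd (s + 1) i) :=
      fun i => congrFun h i
    have h2 := hm.2
    have h3 := hm'.2
    rw [show pvl l L m = _ from split m] at h2
    rw [show pvl l L m' = _ from split m'] at h3
    have e1 : ∑ i : Fin κ, (m (Fin.natAdd (s + 1) i) : ℕ) * fr (s + 1 + κ) (s + 1 + i) =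
        ∑ i : Fin κ, (m' (Fin.natAdd (s + 1) i) : ℕ) * fr (s + 1 + κ) (s + 1 + i) :=
      sum_congr rfl fun i _ => by rw [h1 i]
    rw [e1] at h2
    have h4 : 10 ^ (κ + 1) * inner s (fun c => m (Fin.castAdd κ c)) ≡
        10 ^ (κ + 1) * inner s (fun c => m' (Fin.castAdd κ c)) [MOD q] := by
      have h5 := ((Nat.modEq_zero_iff_dvd.2 h2).trans (Nat.modEq_zero_iff_dvd.2 h3).symm)
      exact Nat.ModEq.add_left_cancel' _ h5
    have h5 : inner s (fun c => m (Fin.castAdd κ c)) ≡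
        inner s (fun c => m' (Fin.castAdd κ c)) [MOD q] :=
      Nat.ModEq.cancel_left_of_coprime (Nat.Coprime.pow_right _ hq) h4
    have h6 := Nat.ModEq.eq_of_lt_of_lt h5 (lt_of_lt_of_le (inner_lt hs _) hlt)
      (lt_of_lt_of_le (inner_lt hs _) hlt)
    have h7 := inner_inj hs h6
    funext j
    refine Fin.addCases (fun c => ?_) (fun i => ?_) j
    · exact congrFun h7 c
    · exact h1 i
  rw [hcard]
  -- the large sieve
  have hmain := sieve x θ S H hH (by
    intro m' hm'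
    rw [hS, mem_image] at hm'
    obtain ⟨m, hm, rfl⟩ := hm'
    rw [mem_filter] at hm
    obtain ⟨k, hk⟩ := hm.2
    set y := inner s (fun c => m (Fin.castAdd κ c)) with hy
    have hylt : y < 10 ^ (2 * s + 1) := inner_lt hs _
    rw [show pvl l L m = _ from split m, ← hL, ← hy] at hk
    have h1 : θ + ∑ i : Fin κ, ((m (Fin.natAdd (s + 1) i) : ℕ) : ℝ) * x i =
        -((y : ℝ) / q) + ((w * y + c * k : ℤ) : ℝ) := by
      have h2 : ((l * (10 ^ (2 * L) + 1) : ℕ) : ℝ) +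
          ∑ i : Fin κ, ((m (Fin.natAdd (s + 1) i) : ℕ) : ℝ) * (fr L (s + 1 + i) : ℝ) =
          q * k - 10 ^ (κ + 1) * y := by
        have h3 : (((l * (10 ^ (2 * L) + 1) +
          ∑ i : Fin κ, (m (Fin.natAdd (s + 1) i) : ℕ) * fr L (s + 1 + i)) +
          10 ^ (κ + 1) * y : ℕ) : ℝ) = ((q * k : ℕ) : ℝ) := by rw [hk]
        push_cast at h3 ⊢
        linarith
      have h4 : θ + ∑ i : Fin κ, ((m (Fin.natAdd (s + 1) i) : ℕ) : ℝ) * x i =
          c / q * (((l * (10 ^ (2 * L) + 1) : ℕ) : ℝ) +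
          ∑ i : Fin κ, ((m (Fin.natAdd (s + 1) i) : ℕ) : ℝ) * (fr L (s + 1 + i) : ℝ)) := by
        rw [mul_add, mul_sum, hθ, hx]
        congr 1
        · ring
        · refine sum_congr rfl fun i _ => ?_
          ring
      rw [h4, h2]
      have h5 : (c : ℝ) / q * (q * k - 10 ^ (κ + 1) * y) = c * k - (c * 10 ^ (κ + 1)) * y / q := by
        field_simp
      rw [h5, ← hcR]
      push_cast
      field_simp
      ring
    have h2 : ∀ h ∈ range H, ee (h * (θ + ∑ i : Fin κ, ((m (Fin.natAdd (s + 1) i) : ℕ) : ℝ) * x i)) =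
        ee (h * (-((y : ℝ) / q))) := by
      intro h _
      rw [h1, mul_add, ls_ee_add]
      have : (h : ℝ) * ((w * y + c * k : ℤ) : ℝ) = ((h * (w * y + c * k) : ℤ) : ℝ) := by
        push_cast; ring
      rw [this, ls_ee_int, mul_one]
    rw [sum_congr rfl h2]
    refine le_trans ?_ (Complex.re_le_norm _)
    rw [Complex.re_sum]
    calc (H : ℝ) / 2 = ∑ _h ∈ range H, (1 / 2 : ℝ) := by
          rw [sum_const, card_range, nsmul_eq_mul]; ring
      _ ≤ _ := by
          refine sum_le_sum fun h hh => half_le q y H h ?_ hqpos (mem_range.1 hh)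
          refine le_trans ?_ hqH
          apply Nat.mul_le_mul_right
          apply Nat.mul_le_mul_left
          exact hylt.le)
  refine hmain.trans (le_of_eq ?_)
  congr 3
  refine sum_congr rfl fun h _ => ?_
  rw [← Fin.prod_univ_eq_prod_range (fun i => ph (h * (-((w : ℝ) / 10 ^ (i + 1)) + lam s i / q))) κ]
  refine prod_congr rfl fun i _ => ?_
  have hi := i.2
  have e1 : (fr L (s + 1 + i) : ℝ) = 10 ^ (κ + 1) * lam s i := by
    rw [fr, if_neg (by omega), lam]
    have e2 : L + (s + 1 + (i : ℕ)) = (κ + 1) + (2 * s + 1 + i) := by omega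
    have e3 : L - (s + 1 + (i : ℕ)) = κ - i := by omega
    have e4 : (10 : ℝ) ^ (κ + 1) = 10 ^ (κ - (i : ℕ)) * 10 ^ ((i : ℕ) + 1) := by
      rw [← pow_add]; congr 1; omega
    rw [e2, e3]
    push_cast
    rw [mul_add, ← pow_add, add_comm]
    congr 1
    rw [e4]
    field_simp
  have e5 : (h : ℝ) * x i = h * (-((w : ℝ) / 10 ^ ((i : ℕ) + 1)) + lam s i / q) +
      ((-(h * w * 10 ^ (2 * s + 1 + (i : ℕ))) : ℤ) : ℝ) := by
    rw [hx]
    simp only
    rw [e1, show (c : ℝ) * (10 ^ (κ + 1) * lam s i) = (c * 10 ^ (κ + 1)) * lam s i by ring, ← hcR]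
    have e6 : ((1 : ℝ) - q * w) * lam s i / q = lam s i / q - w * lam s i := by field_simp
    rw [e6]
    rw [show (w : ℝ) * lam s i = w / 10 ^ ((i : ℕ) + 1) + w * 10 ^ (2 * s + 1 + (i : ℕ)) by
      rw [lam]; ring]
    push_cast
    ring
  rw [e5, ph_add_int]

end Pool.Agent.Helper94.SQ
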