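import Pool.Agent.Helper94.SQ.Block

/-!
Mean values of digit products over the residues modulo a power of ten.
-/

set_option autoImplicit false

namespace Pool.Agent.Helper94.SQ

open Finset Pool.Agent.Helper112 Pool.Agent.H476R2.Pal

/-- the integer with given digits -/
def dig (J : ℕ) (m : Fin J → Fin 10) : ℕ := ∑ i : Fin J, (m i : ℕ) * 10 ^ (J - 1 - i)

theorem dig_succ (J : ℕ) (m : Fin (J + 1) → Fin 10) :
    dig (J + 1) m = 10 * dig J (fun i => m i.castSucc) + m (Fin.last J) := by
  rw [dig, Fin.sum_univ_castSucc, dig, mul_sum]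
  congr 1
  · refine sum_congr rfl fun i _ => ?_
    have := i.2
    rw [Fin.val_castSucc]
    have e : J + 1 - 1 - (i : ℕ) = (J - 1 - i) + 1 := by omega
    rw [e, pow_succ]
    ring
  · rw [Fin.val_last]
    have e : J + 1 - 1 - J = 0 := by omega
    rw [e, pow_zero, mul_one]

theorem dig_lt (J : ℕ) (m : Fin J → Fin 10) : dig J m < 10 ^ J := by
  induction J with
  | zero => simp [dig]
  | succ J ih =>
    rw [dig_succ, pow_succ]
    have h1 := ih (fun i => m i.castSucc)
    have h2 := (m (Fin.last J)).2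
    omega

theorem dig_inj (J : ℕ) : Function.Injective (dig J) := by
  induction J with
  | zero => intro a b _; exact Subsingleton.elim _ _
  | succ J ih =>
    intro a b hab
    rw [dig_succ, dig_succ] at hab
    have h1 := (a (Fin.last J)).2
    have h2 := (b (Fin.last J)).2
    have h3 : dig J (fun i => a i.castSucc) = dig J (fun i => b i.castSucc) := by omega
    have h4 : (a (Fin.last J) : ℕ) = b (Fin.last J) := by omega
    have h5 := ih h3
    funext c
    refine Fin.lastCases ?_ (fun c => ?_) c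
    · exact Fin.ext h4
    · exact congrFun h5 c

theorem geom_zero (X : ℕ) (hX : 0 < X) (k : ℤ) :
    ‖∑ w ∈ range X, ee (w * ((k : ℝ) / X))‖ ≤ if (X : ℤ) ∣ k then (X : ℝ) else 0 := by
  split_ifs with h
  · refine (norm_sum_le _ _).trans (le_of_eq ?_)
    simp [ls_norm_ee]
  · have hX0 : (X : ℝ) ≠ 0 := by positivity
    have h1 : ee ((k : ℝ) / X) ≠ 1 := by
      intro h2
      obtain ⟨n, hn⟩ := ls_ee_eq_one h2
      apply h
      refine ⟨n, ?_⟩
      have h3 : (k : ℝ) = X * n := by
        rw [← hn]; field_simp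
      exact_mod_cast h3
    have h2 : ∑ w ∈ range X, ee (w * ((k : ℝ) / X)) = 0 := by
      have e1 : ∀ w ∈ range X, ee (w * ((k : ℝ) / X)) = ee ((k : ℝ) / X) ^ w :=
        fun w _ => ls_ee_nat_mul _ _
      rw [sum_congr rfl e1, geom_sum_eq h1, ← ls_ee_nat_mul]
      have e2 : (X : ℝ) * ((k : ℝ) / X) = k := by field_simp
      rw [e2, ls_ee_int, sub_self, zero_div]
    rw [h2, norm_zero]

/-- the number of solutions of a linear congruence -/
theorem lin_card (J h N : ℕ) (hh : 1 ≤ h) :
    ((univ : Finset (Fin J → Fin 10)).filter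
      (fun m => ((10 ^ J : ℕ) : ℤ) ∣ (h : ℤ) * dig J m - (h : ℤ) * N)).card ≤ h := by
  classical
  have hX : 0 < 10 ^ J := by positivity
  calc _ ≤ (range h).card := by
        apply card_le_card_of_injOn (fun m => h * dig J m / 10 ^ J)
        · intro m hm
          rw [mem_coe, mem_range, Nat.div_lt_iff_lt_mul hX]
          exact Nat.mul_lt_mul_of_pos_left (dig_lt J m) hh
        · intro m hm m' hm' hmm
          rw [mem_coe, mem_filter] at hm hm'
          simp only at hmm
          have h1 : ((10 ^ J : ℕ) : ℤ) ∣ ((h * dig J m : ℕ) : ℤ) - ((h * dig J m' : ℕ) : ℤ) := by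
            have := dvd_sub hm.2 hm'.2
            push_cast at this ⊢
            have e1 : (h : ℤ) * dig J m - h * N - (h * dig J m' - h * N) =
                h * dig J m - h * dig J m' := by ring
            rwa [e1] at this
          have h2 : h * dig J m' ≡ h * dig J m [MOD 10 ^ J] :=
            Int.natCast_modEq_iff.1 ((Int.modEq_iff_dvd).2 h1)
          have h3 : h * dig J m = h * dig J m' := by
            rw [← Nat.div_add_mod (h * dig J m) (10 ^ J), ← Nat.div_add_mod (h * dig J m') (10 ^ J),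
              hmm, h2]
          exact dig_inj J (Nat.eq_of_mul_eq_mul_left hh h3)
    _ = h := card_range h

theorem pars : Pars := by
  classical
  intro J h hh θ
  set X : ℕ := 10 ^ J with hX
  have hXpos : 0 < X := by positivity
  have hXR : (0 : ℝ) < X := by exact_mod_cast hXpos
  set b : (Fin J → Fin 10) → ℂ := fun m => ee (∑ i, ((m i : ℕ) : ℝ) * θ i) with hb
  set F : ℕ → ℂ := fun w => ∑ m : Fin J → Fin 10, b m * ee (w * (((-(h * dig J m : ℤ) : ℤ) : ℝ) / X))
    with hF
  -- the product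
  have h1 : ∀ w : ℕ, ∏ i ∈ range J, ph (h * (-((w : ℝ) / 10 ^ (i + 1))) + θ i) = ‖F w‖ / X := by
    intro w
    have e1 := digit_sum (κ := J) (fun i => h * (-((w : ℝ) / 10 ^ ((i : ℕ) + 1))) + θ i) 0 1
    have e2 : ∑ m : Fin J → Fin 10, ee (1 * (0 + ∑ i : Fin J, ((m i : ℕ) : ℝ) *
        (h * (-((w : ℝ) / 10 ^ ((i : ℕ) + 1))) + θ i))) = F w := by
      rw [hF]
      refine sum_congr rfl fun m _ => ?_
      rw [hb]
      simp only
      rw [← ls_ee_add]
      congr 1
      rw [one_mul, zero_add]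
      have e3 : ((dig J m : ℕ) : ℝ) / X = ∑ i : Fin J, ((m i : ℕ) : ℝ) / 10 ^ ((i : ℕ) + 1) := by
        rw [dig, hX]
        push_cast
        rw [sum_div]
        refine sum_congr rfl fun i _ => ?_
        have := i.2
        have e4 : (10 : ℝ) ^ J = 10 ^ (J - 1 - (i : ℕ)) * 10 ^ ((i : ℕ) + 1) := by
          rw [← pow_add]; congr 1; omega
        rw [e4]
        field_simp
      have e5 : (w : ℝ) * (((-(h * dig J m : ℤ) : ℤ) : ℝ) / X) =
          ∑ i : Fin J, -(w * h) * (((m i : ℕ) : ℝ) / 10 ^ ((i : ℕ) + 1)) := by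
        rw [← mul_sum, ← e3]
        push_cast
        ring
      rw [e5, ← sum_add_distrib]
      refine sum_congr rfl fun i _ => ?_
      ring
    rw [e2] at e1
    rw [e1, Fin.prod_univ_eq_prod_range (fun i => ph (1 * (h * (-((w : ℝ) / 10 ^ (i + 1))) + θ i))) J]
    rw [hX]
    push_cast
    simp only [one_mul]
    field_simp
  -- the second moment
  have h2 : ((∑ w ∈ range X, ‖F w‖ ^ 2 : ℝ) : ℂ) =
      ∑ m' : Fin J → Fin 10, ∑ m : Fin J → Fin 10, (starRingEnd ℂ) (b m') * b m *
        ∑ w ∈ range X, ee (w * (((-(h * dig J m - h * dig J m') : ℤ) : ℝ) / X)) := by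
    have e1 : ∀ w : ℕ, ((‖F w‖ ^ 2 : ℝ) : ℂ) =
        ∑ m' : Fin J → Fin 10, ∑ m : Fin J → Fin 10, (starRingEnd ℂ) (b m') * b m *
          ee (w * (((-(h * dig J m - h * dig J m') : ℤ) : ℝ) / X)) := by
      intro w
      have e2 : ((‖F w‖ ^ 2 : ℝ) : ℂ) = (starRingEnd ℂ) (F w) * F w := by
        rw [Complex.conj_mul']; push_cast; rfl
      rw [e2, hF]
      simp only
      rw [map_sum, sum_mul_sum]
      refine sum_congr rfl fun m' _ => sum_congr rfl fun m _ => ?_
      have e4 : (starRingEnd ℂ) (ee (w * (((-(h * dig J m' : ℤ) : ℤ) : ℝ) / X))) =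
          ee (-(w * (((-(h * dig J m' : ℤ) : ℤ) : ℝ) / X))) := ls_conj_ee _
      rw [map_mul, e4]
      have e3 : ee (w * (((-(h * dig J m - h * dig J m') : ℤ) : ℝ) / X)) =
          ee (-(w * (((-(h * dig J m' : ℤ) : ℤ) : ℝ) / X))) *
          ee (w * (((-(h * dig J m : ℤ) : ℤ) : ℝ) / X)) := by
        rw [← ls_ee_add]
        congr 1
        push_cast
        ring
      rw [e3]
      ring
    push_cast
    have e3 : ∀ w : ℕ, ((‖F w‖ : ℂ)) ^ 2 = ((‖F w‖ ^ 2 : ℝ) : ℂ) := by
      intro m; push_cast; rfl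
    rw [sum_congr rfl fun w _ => (e3 w).trans (e1 w)]
    rw [sum_comm]
    refine sum_congr rfl fun m' _ => ?_
    rw [sum_comm]
    refine sum_congr rfl fun m _ => ?_
    rw [mul_sum]
    refine sum_congr rfl fun w _ => ?_
    push_cast
    rfl
  have h3 : ∑ w ∈ range X, ‖F w‖ ^ 2 ≤ X * (X * h) := by
    have e0 : 0 ≤ ∑ w ∈ range X, ‖F w‖ ^ 2 := sum_nonneg fun _ _ => by positivity
    have e1 : ∑ w ∈ range X, ‖F w‖ ^ 2 = ‖((∑ w ∈ range X, ‖F w‖ ^ 2 : ℝ) : ℂ)‖ := by
      rw [Complex.norm_real, Real.norm_of_nonneg e0]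
    rw [e1, h2]
    calc _ ≤ ∑ m' : Fin J → Fin 10, ∑ m : Fin J → Fin 10,
          (if ((10 ^ J : ℕ) : ℤ) ∣ (h : ℤ) * dig J m - (h : ℤ) * dig J m' then (X : ℝ) else 0) := by
          refine (norm_sum_le _ _).trans (sum_le_sum fun m' _ => (norm_sum_le _ _).trans
            (sum_le_sum fun m _ => ?_))
          rw [norm_mul, norm_mul, RCLike.norm_conj, hb]
          simp only
          rw [ls_norm_ee, ls_norm_ee, one_mul, one_mul]
          refine (geom_zero X hXpos _).trans (le_of_eq ?_)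
          simp only [dvd_neg]
          rfl
      _ ≤ ∑ _m' : Fin J → Fin 10, (h : ℝ) * X := by
          refine sum_le_sum fun m' _ => ?_
          rw [← sum_filter, sum_const, nsmul_eq_mul]
          apply mul_le_mul_of_nonneg_right _ hXR.le
          exact_mod_cast lin_card J h (dig J m') hh
      _ = X * (X * h) := by
          rw [sum_const, card_univ, nsmul_eq_mul]
          simp only [Fintype.card_pi, Fintype.card_fin, prod_const, card_univ]
          rw [hX]
          push_cast
          ring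
  have h4 : ∑ w ∈ range X, (‖F w‖ / X) ^ 2 ≤ h := by
    have e1 : ∑ w ∈ range X, (‖F w‖ / X) ^ 2 = (∑ w ∈ range X, ‖F w‖ ^ 2) / (X : ℝ) ^ 2 := by
      rw [sum_div]
      refine sum_congr rfl fun w _ => ?_
      rw [div_pow]
    rw [e1, div_le_iff₀ (by positivity)]
    calc _ ≤ (X : ℝ) * (X * h) := h3
      _ = _ := by ring
  rw [sum_congr rfl fun w _ => h1 w]
  apply Real.le_sqrt_of_sq_le
  calc (∑ w ∈ range X, ‖F w‖ / X) ^ 2 ≤ ((range X).card : ℝ) * ∑ w ∈ range X, (‖F w‖ / X) ^ 2 :=
        sq_sum_le_card_mul_sum_sq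
    _ ≤ (X : ℝ) * h := by
        rw [card_range]
        exact mul_le_mul_of_nonneg_left h4 hXR.le
    _ = (10 : ℝ) ^ J * h := by rw [hX]; push_cast; rfl

end Pool.Agent.Helper94.SQ
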