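import Pool.Agent.Helper94.SQ.Sqrt

/-!
Palindromes divisible by the square of a large integer.
-/

set_option autoImplicit false

namespace Pool.Agent.Helper94.SQ

open Finset

/-- the palindromes with exactly `2 L + 1` decimal digits -/
def pal (L : ℕ) : Finset ℕ :=
  (range (10 ^ (2 * L + 1))).filter (fun n => 10 ^ (2 * L) ≤ n ∧
    (Nat.digits 10 n).reverse = Nat.digits 10 n)

theorem low_eq {L R n n' : ℕ} (hn : n ∈ pal L) (hn' : n' ∈ pal L)
    (h : n / 10 ^ (2 * L + 1 - R) = n' / 10 ^ (2 * L + 1 - R)) : n % 10 ^ R = n' % 10 ^ R := by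
  have key : ∀ m ∈ pal L, (Nat.digits 10 m).length = 2 * L + 1 ∧
      (Nat.digits 10 m).take R = ((Nat.digits 10 m).drop (2 * L + 1 - R)).reverse := by
    intro m hm
    rw [pal, mem_filter, mem_range] at hm
    obtain ⟨h1, h2, h3⟩ := hm
    have hlen : (Nat.digits 10 m).length = 2 * L + 1 := by
      apply le_antisymm
      · exact (Nat.digits_length_le_iff (by norm_num) m).2 h1
      · have := (Nat.lt_digits_length_iff (b := 10) (by norm_num) m (k := 2 * L)).2 h2
        omega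
    refine ⟨hlen, ?_⟩
    conv_lhs => rw [← h3]
    rw [List.take_reverse, hlen]
  obtain ⟨l1, t1⟩ := key n hn
  obtain ⟨l2, t2⟩ := key n' hn'
  have e1 : ∀ m : ℕ, m / 10 ^ (2 * L + 1 - R) =
      Nat.ofDigits 10 ((Nat.digits 10 m).drop (2 * L + 1 - R)) := fun m =>
    Nat.self_div_pow_eq_ofDigits_drop _ m (by norm_num)
  have e2 : ∀ m : ℕ, m % 10 ^ R = Nat.ofDigits 10 ((Nat.digits 10 m).take R) := fun m =>
    Nat.self_mod_pow_eq_ofDigits_take _ m (by norm_num)
  have e3 : (Nat.digits 10 n).drop (2 * L + 1 - R) = (Nat.digits 10 n').drop (2 * L + 1 - R) := by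
    apply Nat.ofDigits_inj_of_len_eq (b := 10) (by norm_num)
    · rw [List.length_drop, List.length_drop, l1, l2]
    · intro d hd
      exact Nat.digits_lt_base (by norm_num) (List.mem_of_mem_drop hd)
    · intro d hd
      exact Nat.digits_lt_base (by norm_num) (List.mem_of_mem_drop hd)
    · rw [← e1, ← e1, h]
  rw [e2, e2, t1, t2, e3]

theorem pow_dvd_mul {p : ℕ} (hp : p.Prime) {R c : ℕ} {X : ℤ} (hc : ¬ p ^ 2 ∣ c)
    (h : (p : ℤ) ^ (R + 1) ∣ (c : ℤ) * X) : (p : ℤ) ^ R ∣ X := by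
  have hp' : Prime (p : ℤ) := Nat.prime_iff_prime_int.1 hp
  by_cases h1 : p ∣ c
  · obtain ⟨c', rfl⟩ := h1
    have h2 : ¬ p ∣ c' := by
      intro h3
      apply hc
      rw [pow_two]
      exact mul_dvd_mul_left p h3
    have h3 : (p : ℤ) ^ R ∣ (c' : ℤ) * X := by
      push_cast at h
      rw [pow_succ', mul_assoc] at h
      exact (mul_dvd_mul_iff_left (by exact_mod_cast hp.ne_zero)).1 h
    exact hp'.pow_dvd_of_dvd_mul_left R (by exact_mod_cast h2) h3
  · have := hp'.pow_dvd_of_dvd_mul_left (R + 1) (by exact_mod_cast h1) h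
    exact (pow_dvd_pow _ (Nat.le_succ R)).trans this

/-- not divisible by `4` and not divisible by `25` -/
def good (n : ℕ) : Prop := ¬ 4 ∣ n ∧ ¬ 25 ∣ n

instance : DecidablePred good := fun n => by unfold good; infer_instance

theorem good_coprime {c d : ℕ} (h : good (c * d ^ 2)) : d.Coprime 10 := by
  have h2 : ¬ 2 ∣ d := by
    rintro ⟨k, rfl⟩
    exact h.1 ⟨c * k ^ 2, by ring⟩
  have h5 : ¬ 5 ∣ d := by
    rintro ⟨k, rfl⟩
    exact h.2 ⟨c * k ^ 2, by ring⟩
  have e1 : Nat.Coprime d 2 := ((Nat.Prime.coprime_iff_not_dvd Nat.prime_two).2 h2).symm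
  have e2 : Nat.Coprime d 5 := ((Nat.Prime.coprime_iff_not_dvd Nat.prime_five).2 h5).symm
  exact Nat.Coprime.mul_right e1 e2

theorem good_left {c d : ℕ} (h : good (c * d ^ 2)) : ¬ 2 ^ 2 ∣ c ∧ ¬ 5 ^ 2 ∣ c :=
  ⟨fun h1 => h.1 (dvd_mul_of_dvd_left h1 _), fun h1 => h.2 (dvd_mul_of_dvd_left h1 _)⟩

/-- The integers `d` of a short block for which `c d ^ 2` is a palindrome. -/
theorem block {L D R c e : ℕ} (hR : 2 ≤ R) (hRL : R ≤ L) (hD : 10 ^ (2 * R) ≤ D)
    (he : D ≤ e) :
    ((Ico e (e + 2 ^ (R - 2) * 5 ^ (R - 1))).filter (fun d => d < 2 * D ∧ c * d ^ 2 ∈ pal L ∧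
      good (c * d ^ 2))).card ≤ 16 := by
  classical
  set B := 2 ^ (R - 2) * 5 ^ (R - 1) with hB
  have hB2 : 20 * B = 10 ^ R := by
    obtain ⟨r, rfl⟩ : ∃ r, R = r + 2 := ⟨R - 2, by omega⟩
    have e1 : r + 2 - 1 = r + 1 := by omega
    rw [hB, Nat.add_sub_cancel, e1, show (10 : ℕ) ^ (r + 2) = (2 * 5) ^ r * 100 by ring, mul_pow]
    ring
  set S := (Ico e (e + B)).filter (fun d => d < 2 * D ∧ c * d ^ 2 ∈ pal L ∧
      good (c * d ^ 2)) with hS
  rcases S.eq_empty_or_nonempty with h0 | hne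
  · rw [h0]; simp
  -- the least element
  obtain ⟨d0, hd0, hmin⟩ := S.exists_min_image id hne
  set W := 10 ^ (2 * L + 1 - R) with hW
  let f : ℕ → ℕ := fun d => c * d ^ 2 / W
  have hWpos : 0 < W := by positivity
  have hmem : ∀ d ∈ S, (e ≤ d ∧ d < e + B) ∧ d < 2 * D ∧ c * d ^ 2 ∈ pal L ∧
      good (c * d ^ 2) := by
    intro d hd
    rw [hS, mem_filter, mem_Ico] at hd
    exact hd
  have hW2 : W * 10 ^ R = 10 ^ (2 * L + 1) := by
    rw [hW, ← pow_add]; congr 1; omega
  -- the values of `f` are in an interval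
  have hf : ∀ d ∈ S, f d ∈ Icc (f d0) (f d0 + 3) := by
    intro d hd
    obtain ⟨⟨h1, h2⟩, h3, h4, _⟩ := hmem d hd
    obtain ⟨⟨g1, g2⟩, g3, g4, _⟩ := hmem d0 hd0
    have hle : d0 ≤ d := hmin d hd
    rw [mem_Icc]
    constructor
    · exact Nat.div_le_div_right (Nat.mul_le_mul_left _ (Nat.pow_le_pow_left hle 2))
    · -- `c d^2 - c d0^2 < 3 W`
      have h5 : c * d0 ^ 2 < 10 ^ (2 * L + 1) := by
        rw [pal, mem_filter, mem_range] at g4
        exact g4.1
      have hd0D : D ≤ d0 := le_trans he g1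
      obtain ⟨t, ht⟩ : ∃ t, d = d0 + t := ⟨d - d0, by omega⟩
      have htB : t ≤ B := by omega
      have h6 : c * d ^ 2 ≤ c * d0 ^ 2 + 3 * W := by
        have e1 : c * d ^ 2 = c * d0 ^ 2 + c * t * (2 * d0 + t) := by rw [ht]; ring
        rw [e1]
        apply Nat.add_le_add_left
        -- `c t (2 d0 + t) ≤ 3 W`
        have k1 : t ≤ d0 := by
          have : 10 ^ R ≤ 10 ^ (2 * R) := Nat.pow_le_pow_right (by norm_num) (by omega)
          omega
        have k2 : c * t * (2 * d0 + t) * 10 ^ (2 * R) ≤ 3 * W * 10 ^ (2 * R) := by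
          calc c * t * (2 * d0 + t) * 10 ^ (2 * R) ≤ c * t * (3 * d0) * D := by
                apply Nat.mul_le_mul _ hD
                apply Nat.mul_le_mul_left
                omega
            _ ≤ c * t * (3 * d0) * d0 := Nat.mul_le_mul_left _ hd0D
            _ = 3 * (c * d0 ^ 2) * t := by ring
            _ ≤ 3 * (10 ^ (2 * L + 1)) * 10 ^ R := by
                apply Nat.mul_le_mul
                · omega
                · omega
            _ = 3 * W * 10 ^ (2 * R) := by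
                rw [← hW2, show 2 * R = R + R by ring, pow_add]; ring
        exact Nat.le_of_mul_le_mul_right k2 (by positivity)
      calc c * d ^ 2 / W ≤ (c * d0 ^ 2 + 3 * W) / W := Nat.div_le_div_right h6
        _ = c * d0 ^ 2 / W + 3 := by rw [Nat.add_mul_div_right _ _ hWpos]
  -- the fibres
  have hfib : ∀ a ∈ Icc (f d0) (f d0 + 3), (S.filter (fun d => f d = a)).card ≤ 4 := by
    intro a _
    have hR1 : R - 2 + 1 = R - 1 := by omega
    have := four (R - 2) e (S.filter (fun d => f d = a)) (by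
      intro d hd
      rw [mem_filter] at hd
      rw [hR1, ← hB]
      exact (hmem d hd.1).1) (by
      intro d hd
      rw [mem_filter] at hd
      exact good_coprime (hmem d hd.1).2.2.2) (by
      intro d hd d' hd'
      rw [mem_filter] at hd hd'
      obtain ⟨_, _, h4, h5⟩ := hmem d hd.1
      obtain ⟨_, _, g4, g5⟩ := hmem d' hd'.1
      have h6 : c * d ^ 2 / W = c * d' ^ 2 / W := hd.2.trans hd'.2.symm
      have h7 := low_eq h4 g4 h6
      rw [hR1]
      have h8 : (10 : ℤ) ^ R ∣ (c * d ^ 2 : ℤ) - c * d' ^ 2 := by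
        have h9 : ((c * d' ^ 2 : ℕ) : ℤ) ≡ ((c * d ^ 2 : ℕ) : ℤ) [ZMOD ((10 ^ R : ℕ) : ℤ)] :=
          (Int.natCast_modEq_iff.2 h7).symm
        have := h9.dvd
        push_cast at this
        exact this
      have e1 : (c * d ^ 2 : ℤ) - c * d' ^ 2 = c * ((d : ℤ) ^ 2 - d' ^ 2) := by ring
      rw [e1] at h8
      have e10 : (10 : ℤ) ^ R = 2 ^ (R - 1 + 1) * 5 ^ (R - 1 + 1) := by
        rw [← mul_pow]; congr 1; omega
      have h2 : (2 : ℤ) ^ (R - 1) ∣ (d : ℤ) ^ 2 - d' ^ 2 := by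
        have : ((2 : ℕ) : ℤ) ^ (R - 1 + 1) ∣ (c : ℤ) * ((d : ℤ) ^ 2 - d' ^ 2) :=
          (Dvd.intro _ e10.symm : (2 : ℤ) ^ (R - 1 + 1) ∣ 10 ^ R).trans h8
        exact_mod_cast pow_dvd_mul Nat.prime_two (good_left h5).1 this
      have h5' : (5 : ℤ) ^ (R - 1) ∣ (d : ℤ) ^ 2 - d' ^ 2 := by
        have : ((5 : ℕ) : ℤ) ^ (R - 1 + 1) ∣ (c : ℤ) * ((d : ℤ) ^ 2 - d' ^ 2) :=
          (Dvd.intro_left _ e10.symm : (5 : ℤ) ^ (R - 1 + 1) ∣ 10 ^ R).trans h8
        exact_mod_cast pow_dvd_mul Nat.prime_five (good_left h5).2 this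
      have h10 : (10 : ℤ) ^ (R - 1) = 2 ^ (R - 1) * 5 ^ (R - 1) := by
        rw [← mul_pow]; norm_num
      rw [h10]
      apply IsCoprime.mul_dvd _ h2 h5'
      apply IsCoprime.pow
      exact ⟨-2, 1, by norm_num⟩)
    exact this
  calc S.card ≤ 4 * (Icc (f d0) (f d0 + 3)).card :=
        card_le_mul_card_image_of_maps_to hf 4 hfib
    _ = 16 := by rw [Nat.card_Icc]; omega

/-- The pairs of an integer `d` and a palindrome divisible by `d ^ 2`. -/
theorem large {L D R : ℕ} (hR : 2 ≤ R) (hRL : R ≤ L) (hD : 10 ^ (2 * R) ≤ D) :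
    ∑ d ∈ Ico D (2 * D), ((pal L).filter (fun n => good n ∧ d ^ 2 ∣ n)).card ≤
      (10 ^ (2 * L + 1) / D ^ 2 + 1) * ((D / (2 ^ (R - 2) * 5 ^ (R - 1)) + 1) * 16) := by
  set B := 2 ^ (R - 2) * 5 ^ (R - 1) with hB
  have hBpos : 0 < B := by positivity
  have hDpos : 0 < D := lt_of_lt_of_le (by positivity) hD
  set C := 10 ^ (2 * L + 1) / D ^ 2 with hC
  -- count by the cofactor
  have h1 : ∀ d ∈ Ico D (2 * D), ((pal L).filter (fun n => good n ∧ d ^ 2 ∣ n)).card ≤
      ((range (C + 1)).filter (fun c => c * d ^ 2 ∈ pal L ∧ good (c * d ^ 2))).card := by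
    intro d hd
    rw [mem_Ico] at hd
    apply card_le_card_of_injOn (fun n => n / d ^ 2)
    · intro n hn
      rw [mem_coe, mem_filter] at hn
      obtain ⟨h2, h3, h4⟩ := hn
      rw [mem_coe, mem_filter, mem_range]
      have h5 : n / d ^ 2 * d ^ 2 = n := Nat.div_mul_cancel h4
      refine ⟨?_, ?_⟩
      · rw [Nat.lt_succ_iff]
        have h6 : n < 10 ^ (2 * L + 1) := by
          rw [pal, mem_filter, mem_range] at h2
          exact h2.1
        calc n / d ^ 2 ≤ 10 ^ (2 * L + 1) / d ^ 2 := Nat.div_le_div_right h6.le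
          _ ≤ 10 ^ (2 * L + 1) / D ^ 2 :=
            Nat.div_le_div_left (Nat.pow_le_pow_left hd.1 2) (by positivity)
      · rw [h5]
        exact ⟨h2, h3⟩
    · intro n hn n' hn' h
      rw [mem_coe, mem_filter] at hn hn'
      have h2 : n / d ^ 2 * d ^ 2 = n := Nat.div_mul_cancel hn.2.2
      have h3 : n' / d ^ 2 * d ^ 2 = n' := Nat.div_mul_cancel hn'.2.2
      simp only at h
      rw [← h2, ← h3, h]
  calc ∑ d ∈ Ico D (2 * D), ((pal L).filter (fun n => good n ∧ d ^ 2 ∣ n)).card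
      ≤ ∑ d ∈ Ico D (2 * D),
        ((range (C + 1)).filter (fun c => c * d ^ 2 ∈ pal L ∧ good (c * d ^ 2))).card :=
        sum_le_sum h1
    _ = ∑ c ∈ range (C + 1),
        ((Ico D (2 * D)).filter (fun d => c * d ^ 2 ∈ pal L ∧ good (c * d ^ 2))).card := by
        simp only [card_filter]
        exact sum_comm
    _ ≤ ∑ c ∈ range (C + 1), ((D / B + 1) * 16) := by
        refine sum_le_sum fun c _ => ?_
        -- partition into blocks
        have h2 : ∀ d ∈ (Ico D (2 * D)).filter (fun d => c * d ^ 2 ∈ pal L ∧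
            good (c * d ^ 2)), (d - D) / B ∈ range (D / B + 1) := by
          intro d hd
          rw [mem_filter, mem_Ico] at hd
          rw [mem_range, Nat.lt_succ_iff]
          apply Nat.div_le_div_right
          omega
        have h3 := card_le_mul_card_image_of_maps_to h2 16 (by
          intro j _
          have := block (L := L) (D := D) (R := R) (c := c) (e := D + j * B) hR hRL hD
              (by omega)
          refine le_trans (card_le_card ?_) this
          intro d hd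
          rw [mem_filter, mem_filter, mem_Ico] at hd
          obtain ⟨⟨⟨g1, g2⟩, g3⟩, g4⟩ := hd
          rw [mem_filter, mem_Ico]
          have g5 := Nat.div_add_mod (d - D) B
          have g6 := Nat.mod_lt (d - D) hBpos
          rw [g4] at g5
          refine ⟨⟨?_, ?_⟩, g2, g3⟩
          · rw [mul_comm]; omega
          · rw [← hB, mul_comm j B]; omega)
        rw [card_range] at h3
        exact h3.trans_eq (mul_comm _ _)
    _ = (C + 1) * ((D / B + 1) * 16) := by rw [sum_const, card_range, smul_eq_mul]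

end Pool.Agent.Helper94.SQ
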