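import Pool.Agent.Helper94.SQ.Block

/-!
Palindromes divisible by the square of an integer of medium size.
-/

set_option autoImplicit false

namespace Pool.Agent.Helper94.SQ

open Finset Pool.Agent.Helper112 Pool.Agent.H476R2.Pal

theorem mid_s (hP : Pars) {l s κ J H D : ℕ} (hs : 1 ≤ s) (hJ : 1 ≤ J) (hJκ : J ≤ κ) (hH : 1 ≤ H)
    (hHJ : H ^ 3 ≤ 10 ^ J) (hD : 10 ^ (3 * J) ≤ D) (hsD : 6 * 10 ^ (2 * s + 1) * H ≤ D ^ 2) :
    ∑ d ∈ (Ico D (2 * D)).filter (fun d => d.Coprime 10), (Tc l (s + 1 + κ) (d ^ 2) : ℝ) ≤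
      124 * 10 ^ κ * D / H := by
  have hHR : (0 : ℝ) < H := by exact_mod_cast hH
  have hDpos : 0 < D := lt_of_lt_of_le (by positivity) hD
  have hDR : (0 : ℝ) < D := by exact_mod_cast hDpos
  have hex : ∀ d : ℕ, ∃ w : ℕ, d.Coprime 10 → d ^ 2 * w ≡ 1 [MOD 10 ^ (κ + 1)] := by
    intro d
    by_cases hd : d.Coprime 10
    · obtain ⟨w, _, hw⟩ := Nat.exists_mul_mod_eq_one_of_coprime
        (Nat.Coprime.pow_left 2 (Nat.Coprime.pow_right (κ + 1) hd))
        (Nat.one_lt_pow (n := κ + 1) (by omega) (by norm_num : 1 < 10))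
      refine ⟨w, fun _ => ?_⟩
      rw [Nat.ModEq, hw, Nat.mod_eq_of_lt (Nat.one_lt_pow (by omega) (by norm_num))]
    · exact ⟨0, fun h => absurd h hd⟩
  choose w hw using hex
  have hwJ : ∀ d, d.Coprime 10 → d ^ 2 * w d ≡ 1 [MOD 10 ^ J] := fun d hd =>
    (hw d hd).of_dvd (pow_dvd_pow 10 (by omega))
  have h1 : ∀ d ∈ (Ico D (2 * D)).filter (fun d => d.Coprime 10),
      (Tc l (s + 1 + κ) (d ^ 2) : ℝ) ≤
        4 * 10 ^ κ / H * (1 + 2 * ∑ h ∈ Ico 1 H, P J s h (w d) d) := by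
    intro d hd
    rw [mem_filter, mem_Ico] at hd
    have hq : 6 * 10 ^ (2 * s + 1) * H ≤ d ^ 2 := hsD.trans (Nat.pow_le_pow_left hd.1.1 2)
    refine (count (l := l) (κ := κ) hs (Nat.Coprime.pow_left 2 hd.2) hH hq (hw d hd.2)).trans ?_
    apply mul_le_mul_of_nonneg_left _ (by positivity)
    apply add_le_add_right
    apply mul_le_mul_of_nonneg_left _ (by norm_num)
    refine sum_le_sum fun h _ => ?_
    obtain ⟨t, rfl⟩ : ∃ t, κ = J + t := ⟨κ - J, by omega⟩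
    rw [prod_range_add]
    push_cast
    calc _ ≤ (∏ i ∈ range J, ph (h * (-((w d : ℝ) / 10 ^ (i + 1)) + lam s i / (d : ℝ) ^ 2))) * 1 := by
          apply mul_le_mul_of_nonneg_left _ (prod_nonneg fun _ _ => ph_nonneg _)
          exact prod_le_one (fun _ _ => ph_nonneg _) fun _ _ => ph_le_one _
      _ = _ := by rw [mul_one, P]
  have h2 : ∀ h ∈ Ico 1 H, ∑ d ∈ (Ico D (2 * D)).filter (fun d => d.Coprime 10),
      P J s h (w d) d ≤ 15 * D * Real.sqrt H / Real.sqrt (10 ^ J) := by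
    intro h hh
    rw [mem_Ico] at hh
    refine (dsum hP hJ hD hsD hh.1 hh.2.le w hwJ).trans ?_
    have : Real.sqrt h ≤ Real.sqrt H := Real.sqrt_le_sqrt (by exact_mod_cast hh.2.le)
    gcongr
  calc ∑ d ∈ (Ico D (2 * D)).filter (fun d => d.Coprime 10), (Tc l (s + 1 + κ) (d ^ 2) : ℝ)
      ≤ ∑ d ∈ (Ico D (2 * D)).filter (fun d => d.Coprime 10),
        4 * 10 ^ κ / H * (1 + 2 * ∑ h ∈ Ico 1 H, P J s h (w d) d) := sum_le_sum h1
    _ = 4 * 10 ^ κ / H * (((Ico D (2 * D)).filter (fun d => d.Coprime 10)).card +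
        2 * ∑ h ∈ Ico 1 H, ∑ d ∈ (Ico D (2 * D)).filter (fun d => d.Coprime 10),
          P J s h (w d) d) := by
        rw [← mul_sum, sum_add_distrib, ← mul_sum, sum_comm, sum_const, nsmul_eq_mul, mul_one]
    _ ≤ 4 * 10 ^ κ / H * (D + 2 * (H * (15 * D * Real.sqrt H / Real.sqrt (10 ^ J)))) := by
        apply mul_le_mul_of_nonneg_left _ (by positivity)
        apply add_le_add
        · have : ((Ico D (2 * D)).filter (fun d => d.Coprime 10)).card ≤ D := by
            calc ((Ico D (2 * D)).filter (fun d => d.Coprime 10)).card ≤ (Ico D (2 * D)).card :=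
                  card_filter_le _ _
              _ = D := by rw [Nat.card_Ico]; omega
          exact_mod_cast this
        · apply mul_le_mul_of_nonneg_left _ (by norm_num)
          calc ∑ h ∈ Ico 1 H, ∑ d ∈ (Ico D (2 * D)).filter (fun d => d.Coprime 10), P J s h (w d) d
              ≤ ∑ _h ∈ Ico 1 H, 15 * D * Real.sqrt H / Real.sqrt (10 ^ J) := sum_le_sum h2
            _ = (H - 1 : ℕ) * (15 * D * Real.sqrt H / Real.sqrt (10 ^ J)) := by
                rw [sum_const, Nat.card_Ico, nsmul_eq_mul]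
            _ ≤ _ := by
                apply mul_le_mul_of_nonneg_right _ (by positivity)
                exact_mod_cast Nat.sub_le H 1
    _ = 4 * 10 ^ κ * D / H * (1 + 30 * (H * Real.sqrt H / Real.sqrt (10 ^ J))) := by
        field_simp
        ring
    _ ≤ 4 * 10 ^ κ * D / H * (1 + 30 * 1) := by
        apply mul_le_mul_of_nonneg_left _ (by positivity)
        have : (H : ℝ) * Real.sqrt H / Real.sqrt (10 ^ J) ≤ 1 := by
          rw [div_le_one (Real.sqrt_pos.2 (by positivity))]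
          apply Real.le_sqrt_of_sq_le
          rw [mul_pow, Real.sq_sqrt hHR.le]
          have : ((H ^ 3 : ℕ) : ℝ) ≤ ((10 ^ J : ℕ) : ℝ) := by exact_mod_cast hHJ
          push_cast at this
          linarith
        linarith
    _ = _ := by ring

/-- the number of palindromes divisible by the square of an integer in a dyadic block -/
theorem mid (hP : Pars) {l L J H D : ℕ} (hJ : 1 ≤ J) (hH : 1 ≤ H)
    (hHJ : H ^ 3 ≤ 10 ^ J) (hD : 10 ^ (3 * J) ≤ D) (hD2 : D ≤ 10 ^ (L - J)) (hJL : J ≤ L) :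
    ∑ d ∈ (Ico D (2 * D)).filter (fun d => d.Coprime 10), (Tc l L (d ^ 2) : ℝ) ≤
      1000 * 10 ^ L / Real.sqrt H := by
  have hHR : (0 : ℝ) < H := by exact_mod_cast hH
  have hDpos : 0 < D := lt_of_lt_of_le (by positivity) hD
  have hDR : (0 : ℝ) < D := by exact_mod_cast hDpos
  set Q : ℕ → Prop := fun s => 6 * 10 ^ (2 * s + 1) * H ≤ D ^ 2 with hQ
  have : DecidablePred Q := fun s => by rw [hQ]; infer_instance
  have hQ1 : Q 1 := by
    show 6 * 10 ^ (2 * 1 + 1) * H ≤ D ^ 2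
    have h1 : H ≤ H ^ 3 := Nat.le_self_pow (by norm_num) H
    have h2 : 10 ^ J * 10 ^ (5 * J) ≤ D ^ 2 := by
      calc 10 ^ J * 10 ^ (5 * J) = (10 ^ (3 * J)) ^ 2 := by rw [← pow_add, ← pow_mul]; congr 1; omega
        _ ≤ D ^ 2 := Nat.pow_le_pow_left hD 2
    have h3 : 6 * 10 ^ (2 * 1 + 1) ≤ 10 ^ (5 * J) := by
      calc 6 * 10 ^ (2 * 1 + 1) ≤ 10 ^ (5 * 1) := by norm_num
        _ ≤ 10 ^ (5 * J) := Nat.pow_le_pow_right (by norm_num) (by omega)
    calc 6 * 10 ^ (2 * 1 + 1) * H ≤ 10 ^ (5 * J) * 10 ^ J := Nat.mul_le_mul h3 (h1.trans hHJ)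
      _ = 10 ^ J * 10 ^ (5 * J) := mul_comm _ _
      _ ≤ D ^ 2 := h2
  have hbound : ∀ s, Q s → s + 1 + J ≤ L := by
    intro s hs
    have h1 : 10 ^ (2 * s + 1) < 10 ^ (2 * (L - J)) := by
      calc 10 ^ (2 * s + 1) < 6 * 10 ^ (2 * s + 1) * H := by
            have : 0 < 10 ^ (2 * s + 1) := by positivity
            nlinarith
        _ ≤ D ^ 2 := hs
        _ ≤ (10 ^ (L - J)) ^ 2 := Nat.pow_le_pow_left hD2 2
        _ = 10 ^ (2 * (L - J)) := by rw [← pow_mul]; congr 1; ring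
    have h2 := (Nat.pow_lt_pow_iff_right (by norm_num : 1 < 10)).1 h1
    omega
  set s := Nat.findGreatest Q L with hs
  have hs1 : Q s := Nat.findGreatest_spec (m := 1) (by have := hbound 1 hQ1; omega) hQ1
  have hs2 : 1 ≤ s := Nat.le_findGreatest (by have := hbound 1 hQ1; omega) hQ1
  have hs3 := hbound s hs1
  have hs4 : ¬ Q (s + 1) := by
    intro h
    have h1 := hbound (s + 1) h
    exact Nat.findGreatest_is_greatest (P := Q) (n := L) (k := s + 1) (by omega) (by omega) h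
  obtain ⟨κ, hκ⟩ : ∃ κ, L = s + 1 + κ := ⟨L - (s + 1), by omega⟩
  rw [hκ]
  refine (mid_s hP hs2 hJ (by omega) hH hHJ hD hs1).trans ?_
  have h5 : (D : ℝ) ^ 2 ≤ 6 * 10 ^ (2 * (s + 1) + 1) * H := by
    have : D ^ 2 ≤ 6 * 10 ^ (2 * (s + 1) + 1) * H := (not_le.1 hs4).le
    exact_mod_cast this
  have h6 : (10 : ℝ) ^ κ * D ≤ 8 * 10 ^ (s + 1 + κ) * Real.sqrt H := by
    apply (pow_le_pow_iff_left₀ (by positivity) (by positivity) (two_ne_zero)).1
    rw [mul_pow, mul_pow, Real.sq_sqrt hHR.le]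
    calc ((10 : ℝ) ^ κ) ^ 2 * (D : ℝ) ^ 2 ≤ (10 ^ κ) ^ 2 * (6 * 10 ^ (2 * (s + 1) + 1) * H) :=
          mul_le_mul_of_nonneg_left h5 (by positivity)
      _ = 60 * (10 ^ (s + 1 + κ)) ^ 2 * H := by ring
      _ ≤ (8 * 10 ^ (s + 1 + κ)) ^ 2 * H := by
          rw [mul_pow]
          have : (0 : ℝ) < (10 ^ (s + 1 + κ)) ^ 2 * H := by positivity
          nlinarith
  have h7 : (0 : ℝ) < Real.sqrt H := Real.sqrt_pos.2 hHR
  calc 124 * 10 ^ κ * (D : ℝ) / H = 124 * (10 ^ κ * D) / H := by ring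
    _ ≤ 124 * (8 * 10 ^ (s + 1 + κ) * Real.sqrt H) / H := by gcongr
    _ = 992 * 10 ^ (s + 1 + κ) / Real.sqrt H := by
        have k1 : (H : ℝ) = Real.sqrt H * Real.sqrt H := (Real.mul_self_sqrt hHR.le).symm
        generalize Real.sqrt H = t at k1 h7 ⊢
        rw [k1]
        field_simp
        ring
    _ ≤ 1000 * 10 ^ (s + 1 + κ) / Real.sqrt H := by
        apply div_le_div_of_nonneg_right _ h7.le
        have : (0 : ℝ) < 10 ^ (s + 1 + κ) := by positivity
        linarith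

end Pool.Agent.Helper94.SQ
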