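import Pool.Graph.R_seed8.H861R2.Pal.T12
import Pool.Agent.Helper94.SQ.Mid
import Pool.Agent.Helper94.SQ.Large

/-!
Few palindromes have a large square divisor.
-/

set_option autoImplicit false

namespace Pool.Agent.Helper94.SQ

open Finset Filter Topology Pool.Agent.Helper112 Pool.Agent.H476R2.Pal Pool.Agent.H861R2.Pal

/-- the number of palindromes with `2 L + 1` digits divisible by `d ^ 2`, but not by `4` or `25` -/
def G (L d : ℕ) : ℕ := ((pal L).filter (fun n => good n ∧ d ^ 2 ∣ n)).card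

theorem pal_card (L : ℕ) (hL : 1 ≤ L) (q : ℕ) :
    ((pal L).filter (fun n => q ∣ n)).card = ∑ l ∈ Icc 1 9, Tc l L q := by
  have h0 : pal L = palin L := rfl
  rw [h0, palin_eq L hL, filter_image, card_image_of_injOn]
  · rw [card_filter, sum_product]
    apply sum_congr rfl
    intro l _
    rw [← card_filter, Tc]
  · intro x hx y hy hxy
    rw [mem_coe, mem_filter, mem_product, mem_Icc] at hx hy
    exact pvl_inj L hL (show x.1 ≤ 9 from hx.1.1.2) (show y.1 ≤ 9 from hy.1.1.2) hxy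

theorem G_le (L d : ℕ) (hL : 1 ≤ L) : G L d ≤ ∑ l ∈ Icc 1 9, Tc l L (d ^ 2) := by
  rw [← pal_card L hL, G]
  apply card_le_card
  intro n hn
  rw [mem_filter] at hn ⊢
  exact ⟨hn.1, hn.2.2⟩

theorem G_zero {L d : ℕ} (hd : ¬ d.Coprime 10) : G L d = 0 := by
  rw [G, card_eq_zero, filter_eq_empty_iff]
  rintro n _ ⟨h1, h2⟩
  obtain ⟨c, hc⟩ := h2
  rw [mul_comm] at hc
  rw [hc] at h1
  exact hd (good_coprime h1)

theorem G_zero' {L d : ℕ} (hd : 10 ^ (L + 1) ≤ d) : G L d = 0 := by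
  rw [G, card_eq_zero, filter_eq_empty_iff]
  rintro n hn ⟨h1, h2⟩
  rw [pal, mem_filter, mem_range] at hn
  have h3 : 0 < n := lt_of_lt_of_le (by positivity) hn.2.1
  have h4 := Nat.le_of_dvd h3 h2
  have h5 : (10 ^ (L + 1)) ^ 2 ≤ d ^ 2 := Nat.pow_le_pow_left hd 2
  have h6 : 10 ^ (2 * L + 1) ≤ (10 ^ (L + 1)) ^ 2 := by
    rw [← pow_mul]
    exact Nat.pow_le_pow_right (by norm_num) (by omega)
  omega

theorem tail_mid (hP : Pars) {L J H D : ℕ} (hJ : 1 ≤ J) (hH : 1 ≤ H)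
    (hHJ : H ^ 3 ≤ 10 ^ J) (hD : 10 ^ (3 * J) ≤ D) (hD2 : D ≤ 10 ^ (L - J)) (hJL : J ≤ L) :
    ∑ d ∈ Ico D (2 * D), (G L d : ℝ) ≤ 9000 * 10 ^ L / Real.sqrt H := by
  have e1 : ∑ d ∈ Ico D (2 * D), (G L d : ℝ) =
      ∑ d ∈ (Ico D (2 * D)).filter (fun d => d.Coprime 10), (G L d : ℝ) := by
    rw [sum_filter]
    refine sum_congr rfl fun d _ => ?_
    split_ifs with h
    · rfl
    · rw [G_zero h, Nat.cast_zero]
  rw [e1]
  calc ∑ d ∈ (Ico D (2 * D)).filter (fun d => d.Coprime 10), (G L d : ℝ)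
      ≤ ∑ d ∈ (Ico D (2 * D)).filter (fun d => d.Coprime 10), ∑ l ∈ Icc 1 9, (Tc l L (d ^ 2) : ℝ) := by
        refine sum_le_sum fun d _ => ?_
        exact_mod_cast G_le L d (by omega)
    _ = ∑ l ∈ Icc 1 9, ∑ d ∈ (Ico D (2 * D)).filter (fun d => d.Coprime 10),
        (Tc l L (d ^ 2) : ℝ) := sum_comm
    _ ≤ ∑ _l ∈ Icc 1 9, 1000 * 10 ^ L / Real.sqrt H :=
        sum_le_sum fun l _ => mid hP hJ hH hHJ hD hD2 hJL
    _ = _ := by
        rw [sum_const, Nat.card_Icc, nsmul_eq_mul]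
        push_cast
        ring

theorem tail_large {L J R D : ℕ} (hR : 2 ≤ R) (hRL : R ≤ L) (hD : 10 ^ (2 * R) ≤ D)
    (hD1 : 10 ^ (L - J) ≤ D) (hD2 : D ≤ 10 ^ (L + 1)) (hJL : J ≤ L) :
    ∑ d ∈ Ico D (2 * D), (G L d : ℝ) ≤ 6720 * 10 ^ (L + J) / 10 ^ R := by
  have hDpos : 0 < D := lt_of_lt_of_le (by positivity) hD
  have hDR : (0 : ℝ) < D := by exact_mod_cast hDpos
  have h1 : ((∑ d ∈ Ico D (2 * D), G L d : ℕ) : ℝ) ≤
      (((10 ^ (2 * L + 1) / D ^ 2 + 1) * ((D / (2 ^ (R - 2) * 5 ^ (R - 1)) + 1) * 16) : ℕ) : ℝ) := by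
    exact_mod_cast large (L := L) hR hRL hD
  rw [Nat.cast_sum] at h1
  refine h1.trans ?_
  set B := 2 ^ (R - 2) * 5 ^ (R - 1) with hB
  have hB2 : 20 * B = 10 ^ R := by
    obtain ⟨r, rfl⟩ : ∃ r, R = r + 2 := ⟨R - 2, by omega⟩
    have e1 : r + 2 - 1 = r + 1 := by omega
    rw [hB, Nat.add_sub_cancel, e1, show (10 : ℕ) ^ (r + 2) = (2 * 5) ^ r * 100 by ring, mul_pow]
    ring
  have hB2R : 20 * (B : ℝ) = 10 ^ R := by exact_mod_cast hB2
  have hBpos : 0 < B := by positivity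
  have hBR : (0 : ℝ) < B := by exact_mod_cast hBpos
  have hX : (0 : ℝ) < 10 ^ R := by positivity
  have hRD : (10 : ℝ) ^ R ≤ D := by
    have : 10 ^ R ≤ D := le_trans (Nat.pow_le_pow_right (by norm_num) (by omega)) hD
    exact_mod_cast this
  have k1 : ((D / B : ℕ) : ℝ) + 1 ≤ 21 * D / 10 ^ R := by
    have e1 : ((D / B : ℕ) : ℝ) ≤ D / B := Nat.cast_div_le
    have e2 : (D : ℝ) / B = 20 * D / 10 ^ R := by rw [← hB2R]; field_simp
    have e3 : (1 : ℝ) ≤ D / 10 ^ R := by rw [le_div_iff₀ hX]; linarith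
    calc ((D / B : ℕ) : ℝ) + 1 ≤ 20 * D / 10 ^ R + D / 10 ^ R := by rw [← e2]; linarith
      _ = _ := by ring
  have k2 : ((10 ^ (2 * L + 1) / D ^ 2 : ℕ) : ℝ) + 1 ≤ 10 ^ (2 * L + 1) / (D : ℝ) ^ 2 + 1 := by
    have e1 : ((10 ^ (2 * L + 1) / D ^ 2 : ℕ) : ℝ) ≤ ((10 ^ (2 * L + 1) : ℕ) : ℝ) / ((D ^ 2 : ℕ) : ℝ) :=
      Nat.cast_div_le
    push_cast at e1
    linarith
  have k3 : (10 : ℝ) ^ (2 * L + 1) / D ≤ 10 ^ (L + J + 1) := by
    have e1 : (10 : ℝ) ^ (L - J) ≤ D := by exact_mod_cast hD1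
    rw [div_le_iff₀ hDR]
    calc (10 : ℝ) ^ (2 * L + 1) = 10 ^ (L + J + 1) * 10 ^ (L - J) := by
          rw [← pow_add]; congr 1; omega
      _ ≤ _ := by gcongr
  have k4 : (D : ℝ) ≤ 10 ^ (L + J + 1) := by
    calc (D : ℝ) ≤ 10 ^ (L + 1) := by exact_mod_cast hD2
      _ ≤ 10 ^ (L + J + 1) := pow_le_pow_right₀ (by norm_num) (by omega)
  calc (((10 ^ (2 * L + 1) / D ^ 2 + 1) * ((D / B + 1) * 16) : ℕ) : ℝ)
      = (((10 ^ (2 * L + 1) / D ^ 2 : ℕ) : ℝ) + 1) * ((((D / B : ℕ) : ℝ) + 1) * 16) := by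
        push_cast; ring
    _ ≤ (10 ^ (2 * L + 1) / (D : ℝ) ^ 2 + 1) * ((21 * D / 10 ^ R) * 16) := by
        apply mul_le_mul k2 _ (by positivity) (by positivity)
        exact mul_le_mul_of_nonneg_right k1 (by norm_num)
    _ = 336 * (10 ^ (2 * L + 1) / D + D) / 10 ^ R := by
        field_simp
        ring
    _ ≤ 336 * (10 ^ (L + J + 1) + 10 ^ (L + J + 1)) / 10 ^ R := by gcongr
    _ = _ := by ring

theorem dyadic (f : ℕ → ℝ) (z n : ℕ) :
    ∑ d ∈ Ico z (z * 2 ^ n), f d = ∑ j ∈ range n, ∑ d ∈ Ico (z * 2 ^ j) (2 * (z * 2 ^ j)), f d := by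
  induction n with
  | zero => simp
  | succ n ih =>
    rw [sum_range_succ, ← ih, show z * 2 ^ (n + 1) = 2 * (z * 2 ^ n) by ring]
    have h1 : z ≤ z * 2 ^ n := Nat.le_mul_of_pos_right z (by positivity)
    exact (sum_Ico_consecutive f h1 (by omega)).symm

theorem tail_bound (hP : Pars) {L : ℕ} (hL : 120 ≤ L) :
    ∑ d ∈ Ico (10 ^ (L / 4)) (10 ^ (L + 1)), (G L d : ℝ) ≤
      64000 * (L + 1) * 10 ^ L / 10 ^ (L / 120) := by
  set z := 10 ^ (L / 4) with hz
  set J := L / 20 with hJ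
  set R := 2 * L / 5 with hR
  set k := L / 120 with hk
  have hzpos : 0 < z := by positivity
  have h1 : 10 ^ (L + 1) ≤ z * 2 ^ (4 * (L + 1)) := by
    calc 10 ^ (L + 1) ≤ 16 ^ (L + 1) := Nat.pow_le_pow_left (by norm_num) _
      _ = 2 ^ (4 * (L + 1)) := by rw [pow_mul]; norm_num
      _ ≤ z * 2 ^ (4 * (L + 1)) := Nat.le_mul_of_pos_left _ hzpos
  calc ∑ d ∈ Ico z (10 ^ (L + 1)), (G L d : ℝ)
      ≤ ∑ d ∈ Ico z (z * 2 ^ (4 * (L + 1))), (G L d : ℝ) :=
        sum_le_sum_of_subset_of_nonneg (Ico_subset_Ico le_rfl h1) fun _ _ _ => Nat.cast_nonneg _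
    _ = ∑ j ∈ range (4 * (L + 1)), ∑ d ∈ Ico (z * 2 ^ j) (2 * (z * 2 ^ j)), (G L d : ℝ) :=
        dyadic _ _ _
    _ ≤ ∑ _j ∈ range (4 * (L + 1)), 16000 * 10 ^ L / 10 ^ k := by
        refine sum_le_sum fun j _ => ?_
        set D := z * 2 ^ j with hD
        have hDz : z ≤ D := Nat.le_mul_of_pos_right z (by positivity)
        have hX : (0 : ℝ) < 10 ^ L / 10 ^ k := by positivity
        rcases le_or_gt D (10 ^ (L - J)) with h2 | h2
        · -- medium
          have h3 := tail_mid hP (L := L) (J := J) (H := 10 ^ (2 * k)) (D := D) (by omega)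
            (Nat.one_le_pow _ _ (by norm_num)) (by
              rw [← pow_mul]
              exact Nat.pow_le_pow_right (by norm_num) (by omega)) (by
              refine le_trans ?_ hDz
              exact Nat.pow_le_pow_right (by norm_num) (by omega)) h2 (by omega)
          refine h3.trans ?_
          have h4 : Real.sqrt ((10 ^ (2 * k) : ℕ) : ℝ) = 10 ^ k := by
            push_cast
            rw [mul_comm, pow_mul]
            exact Real.sqrt_sq (by positivity)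
          rw [h4, mul_div_assoc, mul_div_assoc]
          linarith
        · rcases le_or_gt (10 ^ (L + 1)) D with h3 | h3
          · rw [sum_eq_zero]
            · positivity
            · intro d hd
              rw [mem_Ico] at hd
              rw [G_zero' (h3.trans hd.1), Nat.cast_zero]
          · have h4 := tail_large (L := L) (J := J) (R := R) (D := D) (by omega) (by omega) (by
              refine le_trans ?_ h2.le
              exact Nat.pow_le_pow_right (by norm_num) (by omega)) h2.le h3.le (by omega)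
            refine h4.trans ?_
            have h5 : (10 : ℝ) ^ (L + J) / 10 ^ R ≤ 10 ^ L / 10 ^ k := by
              rw [div_le_div_iff₀ (by positivity) (by positivity), ← pow_add, ← pow_add]
              exact pow_le_pow_right₀ (by norm_num) (by omega)
            rw [mul_div_assoc, mul_div_assoc]
            linarith
    _ = 64000 * (L + 1) * 10 ^ L / 10 ^ k := by
        rw [sum_const, card_range, nsmul_eq_mul]
        push_cast
        ring

/-- powers of `L` against `10 ^ (L / 120)` -/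
theorem small (C : ℝ) (A : ℕ) : ∀ᶠ L : ℕ in atTop,
    C * (L + 1) * 10 ^ L / 10 ^ (L / 120) ≤ 10 ^ L / (L : ℝ) ^ A := by
  have h1 : Tendsto (fun k : ℕ => ((k : ℝ) ^ (A + 1)) * (1 / 10 : ℝ) ^ k) atTop (𝓝 0) :=
    tendsto_pow_const_mul_const_pow_of_abs_lt_one (A + 1) (by rw [abs_of_pos] <;> norm_num)
  have h2 : Tendsto (fun L : ℕ => L / 120) atTop atTop := Nat.tendsto_div_const_atTop (by norm_num)
  have h3 := h1.comp h2
  have hC : (0 : ℝ) < |C| + 1 := by positivity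
  have h4 : ∀ᶠ L : ℕ in atTop, (((L / 120 : ℕ) : ℝ) ^ (A + 1)) * (1 / 10 : ℝ) ^ (L / 120) <
      1 / ((|C| + 1) * 2 * 240 ^ (A + 1)) :=
    (tendsto_order.1 h3).2 _ (by positivity)
  filter_upwards [h4, eventually_ge_atTop 120] with L hL hL2
  have hk : 1 ≤ L / 120 := by omega
  generalize hkk : L / 120 = k at hL hk ⊢
  have hLk : L ≤ 240 * k := by omega
  have hLkR : (L : ℝ) ≤ 240 * k := by exact_mod_cast hLk
  have hL0 : (0 : ℝ) < L := by
    have : 0 < L := by omega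
    exact_mod_cast this
  have hL1 : (1 : ℝ) ≤ L := by
    have : 1 ≤ L := by omega
    exact_mod_cast this
  rw [div_le_div_iff₀ (by positivity) (by positivity)]
  have h5 : C * (L + 1) * (L : ℝ) ^ A ≤ 10 ^ k := by
    have h6 : ((k : ℝ) ^ (A + 1)) * ((|C| + 1) * 2 * 240 ^ (A + 1)) ≤ 10 ^ k := by
      rw [lt_div_iff₀ (by positivity), one_div, inv_pow] at hL
      have h7 : (k : ℝ) ^ (A + 1) * ((10 : ℝ) ^ k)⁻¹ * ((|C| + 1) * 2 * 240 ^ (A + 1)) =
          ((k : ℝ) ^ (A + 1) * ((|C| + 1) * 2 * 240 ^ (A + 1))) / 10 ^ k := by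
        rw [div_eq_mul_inv]; ring
      rw [h7, div_lt_one (by positivity)] at hL
      exact hL.le
    refine le_trans ?_ h6
    calc C * (L + 1) * (L : ℝ) ^ A ≤ (|C| + 1) * (L + L) * (L : ℝ) ^ A := by
          apply mul_le_mul_of_nonneg_right _ (by positivity)
          apply mul_le_mul _ (by linarith) (by positivity) hC.le
          have := le_abs_self C
          linarith
      _ = (|C| + 1) * 2 * (L : ℝ) ^ (A + 1) := by ring
      _ ≤ (|C| + 1) * 2 * (240 * k) ^ (A + 1) := by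
          apply mul_le_mul_of_nonneg_left _ (by positivity)
          exact pow_le_pow_left₀ hL0.le hLkR _
      _ = _ := by rw [mul_pow]; ring
  calc C * (L + 1) * 10 ^ L * (L : ℝ) ^ A = (C * (L + 1) * (L : ℝ) ^ A) * 10 ^ L := by ring
    _ ≤ 10 ^ k * 10 ^ L := by gcongr
    _ = _ := by ring

/-- few palindromes have a large square divisor -/
theorem tail (hP : Pars) (A : ℕ) : ∀ᶠ L : ℕ in atTop,
    ∑ d ∈ Ico (10 ^ (L / 4)) (10 ^ (L + 1)), (G L d : ℝ) ≤ 10 ^ L / (L : ℝ) ^ A := by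
  filter_upwards [small 64000 A, eventually_ge_atTop 120] with L h1 h2
  exact (tail_bound hP h2).trans h1

end Pool.Agent.Helper94.SQ
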