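import Pool.Graph.R_seed8.H476R2.Pal.BV2
import Pool.Agent.Helper94.SQ.Tail

/-!
Small square divisors of palindromes.
-/

set_option autoImplicit false

namespace Pool.Agent.Helper94.SQ

open Finset Filter Topology Pool.Agent.Helper112 Pool.Agent.H476R2.Pal Pool.Agent.H861R2.Pal

/-- the palindromes with given first two digits in terms of the palindromes with two digits less -/
theorem pvl_snoc (l M : ℕ) (j : Fin 10) (m : Fin M → Fin 10) (hM : 1 ≤ M) :
    pvl l (M + 1) (Fin.snoc (α := fun _ => Fin 10) m j) + 10 * (10 ^ (2 * M) + 1) =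
      10 * pv M m + (l * (10 ^ (2 * (M + 1)) + 1) + j * (10 ^ (2 * M + 1) + 10)) := by
  have e0 : ∑ c : Fin M, (m c : ℕ) * fr (M + 1) c = 10 * ∑ c : Fin M, (m c : ℕ) * fr M c := by
    rw [mul_sum]
    refine sum_congr rfl fun c _ => ?_
    have := c.2
    rw [fr_scale (L := M + 1) (M := M) (c := c) (by omega) (by omega)]
    have e1 : M + 1 - M = 1 := by omega
    rw [e1]
    ring
  have e2 : fr (M + 1) M = 10 ^ (2 * M + 1) + 10 := by
    rw [fr, if_neg (by omega)]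
    have e1 : M + 1 - M = 1 := by omega
    rw [e1, pow_one]
    congr 2
    omega
  rw [pvl, Fin.sum_univ_castSucc]
  simp only [Fin.snoc_castSucc, Fin.snoc_last, Fin.val_castSucc, Fin.val_last]
  rw [e0, e2, pv]
  ring

theorem pvl_mod (l M : ℕ) (j : Fin 10) (m : Fin M → Fin 10) (hM : 1 ≤ M) :
    ∃ t, pvl l (M + 1) (Fin.snoc (α := fun _ => Fin 10) m j) = 100 * t + (l + 10 * j) := by
  have e1 : ∀ c : Fin M, ∃ u, fr M c = 10 * u := by
    intro c
    have := c.2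
    rw [fr]
    split_ifs with h
    · exact ⟨10 ^ (M - 1), by rw [← pow_succ']; congr 1; omega⟩
    · refine ⟨10 ^ (M + c - 1) + 10 ^ (M - c - 1), ?_⟩
      rw [mul_add, ← pow_succ', ← pow_succ']
      congr 2 <;> omega
  choose u hu using e1
  have h2 := pvl_snoc l M j m hM
  have h3 : pv M m = 10 ^ (2 * M) + 1 + 10 * ∑ c : Fin M, (m c : ℕ) * u c := by
    rw [pv, mul_sum]
    congr 1
    refine sum_congr rfl fun c _ => ?_
    rw [hu c]; ring
  obtain ⟨r, rfl⟩ : ∃ r, M = r + 1 := ⟨M - 1, by omega⟩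
  refine ⟨∑ c : Fin (r + 1), (m c : ℕ) * u c + l * (10 ^ (2 * r + 2)) + j * 10 ^ (2 * r + 1), ?_⟩
  rw [h3] at h2
  have e4 : 10 ^ (2 * (r + 1 + 1)) = 100 * 10 ^ (2 * r + 2) := by ring
  have e5 : 10 ^ (2 * (r + 1) + 1) = 100 * 10 ^ (2 * r + 1) := by ring
  rw [e4, e5] at h2
  nlinarith

theorem good_mod (t k : ℕ) : good (100 * t + k) ↔ good k := by
  unfold good
  have h1 : 4 ∣ 100 * t + k ↔ 4 ∣ k := (Nat.dvd_add_right (Dvd.dvd.mul_right (by norm_num) t))
  have h2 : 25 ∣ 100 * t + k ↔ 25 ∣ k := (Nat.dvd_add_right (Dvd.dvd.mul_right (by norm_num) t))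
  rw [h1, h2]

/-- the residue class -/
theorem exists_res (l j M q : ℕ) (hq : q.Coprime 10) (hq0 : 0 < q) (hM : 1 ≤ M) :
    ∃ h : ℕ, ∀ (j' : Fin 10), (j' : ℕ) = j → ∀ m : Fin M → Fin 10,
      (q ∣ pvl l (M + 1) (Fin.snoc (α := fun _ => Fin 10) m j') ↔ pv M m ≡ h [MOD q]) := by
  -- an inverse of `10`
  obtain ⟨u, hu⟩ : ∃ u : ℕ, 10 * u ≡ 1 [MOD q] := by
    rcases Nat.lt_or_ge 1 q with h1 | h1
    · obtain ⟨u, _, hu⟩ := Nat.exists_mul_mod_eq_one_of_coprime hq.symm h1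
      exact ⟨u, by rw [Nat.ModEq, hu, Nat.mod_eq_of_lt h1]⟩
    · have : q = 1 := by omega
      subst this
      exact ⟨0, Nat.modEq_one⟩
  set K := l * (10 ^ (2 * (M + 1)) + 1) + j * (10 ^ (2 * M + 1) + 10) with hK
  refine ⟨10 ^ (2 * M) + 1 + u * K * (q - 1), fun j' hj m => ?_⟩
  have h1 := pvl_snoc l M j' m hM
  rw [hj, ← hK] at h1
  set V := pvl l (M + 1) (Fin.snoc (α := fun _ => Fin 10) m j') with hV
  have hc10 : Nat.gcd q 10 = 1 := hq
  have h2 : q ∣ V ↔ 10 * pv M m + K ≡ 10 * (10 ^ (2 * M) + 1) [MOD q] := by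
    rw [← h1, ← Nat.modEq_zero_iff_dvd]
    constructor
    · intro h
      have := Nat.ModEq.add_right (10 * (10 ^ (2 * M) + 1)) h
      rwa [zero_add] at this
    · intro h
      have h3 : V + 10 * (10 ^ (2 * M) + 1) ≡ 0 + 10 * (10 ^ (2 * M) + 1) [MOD q] := by
        rwa [zero_add]
      exact Nat.ModEq.add_right_cancel' _ h3
  have hKK : K + 10 * (u * K * (q - 1)) ≡ 0 [MOD q] := by
    have e1 : 10 * (u * K * (q - 1)) = 10 * u * (K * (q - 1)) := by ring
    rw [e1]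
    calc K + 10 * u * (K * (q - 1)) ≡ K + 1 * (K * (q - 1)) [MOD q] :=
          Nat.ModEq.add_left _ (Nat.ModEq.mul_right _ hu)
      _ = K * q := by
          obtain ⟨r, rfl⟩ : ∃ r, q = r + 1 := ⟨q - 1, by omega⟩
          rw [Nat.add_sub_cancel]; ring
      _ ≡ 0 [MOD q] := Nat.modEq_zero_iff_dvd.2 (Dvd.intro_left K rfl)
  rw [h2]
  constructor
  · intro h
    have h3 : 10 * pv M m + K + 10 * (u * K * (q - 1)) ≡
        10 * (10 ^ (2 * M) + 1) + 10 * (u * K * (q - 1)) [MOD q] := Nat.ModEq.add_right _ h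
    have h4 : 10 * pv M m + K + 10 * (u * K * (q - 1)) ≡ 10 * pv M m + 0 [MOD q] := by
      rw [add_assoc]
      exact Nat.ModEq.add_left _ hKK
    rw [add_zero] at h4
    have h5 : 10 * pv M m ≡ 10 * (10 ^ (2 * M) + 1 + u * K * (q - 1)) [MOD q] := by
      have := h4.symm.trans h3
      rwa [← mul_add] at this
    exact Nat.ModEq.cancel_left_of_coprime hc10 h5
  · intro h
    have h3 : 10 * pv M m + K ≡ 10 * (10 ^ (2 * M) + 1 + u * K * (q - 1)) + K [MOD q] :=
      Nat.ModEq.add_right _ (Nat.ModEq.mul_left _ h)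
    refine h3.trans ?_
    have e1 : 10 * (10 ^ (2 * M) + 1 + u * K * (q - 1)) + K =
        10 * (10 ^ (2 * M) + 1) + (K + 10 * (u * K * (q - 1))) := by ring
    rw [e1]
    calc 10 * (10 ^ (2 * M) + 1) + (K + 10 * (u * K * (q - 1))) ≡
        10 * (10 ^ (2 * M) + 1) + 0 [MOD q] := Nat.ModEq.add_left _ hKK
      _ = _ := add_zero _

/-- the admissible pairs of leading digits -/
def Gp : Finset (ℕ × ℕ) := ((Icc 1 9) ×ˢ (range 10)).filter (fun x => good (x.1 + 10 * x.2))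

theorem Gp_card : Gp.card = 68 := by decide +kernel

/-- summing over the last coordinate -/
theorem card_snoc (M : ℕ) (Φ : (Fin (M + 1) → Fin 10) → Prop) [DecidablePred Φ] :
    ((univ : Finset (Fin (M + 1) → Fin 10)).filter Φ).card =
      ∑ j : Fin 10, ((univ : Finset (Fin M → Fin 10)).filter
        (fun m => Φ (Fin.snoc (α := fun _ => Fin 10) m j))).card := by
  simp only [card_filter]
  rw [← (Fin.snocEquiv (fun _ : Fin (M + 1) => Fin 10)).sum_comp, Fintype.sum_prod_type]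
  rfl

/-- the palindromes with an admissible pair of leading digits divisible by `q` -/
theorem good_card (M q : ℕ) (hM : 1 ≤ M) (hq : q.Coprime 10) (hq0 : 0 < q) : ∃ h : ℕ × ℕ → ℕ,
    (((pal (M + 1)).filter (fun n => good n ∧ q ∣ n)).card : ℝ) = ∑ x ∈ Gp, cnt M q (h x) := by
  have hex : ∀ x : ℕ × ℕ, ∃ h : ℕ, ∀ (j' : Fin 10), (j' : ℕ) = x.2 → ∀ m : Fin M → Fin 10,
      (q ∣ pvl x.1 (M + 1) (Fin.snoc (α := fun _ => Fin 10) m j') ↔ pv M m ≡ h [MOD q]) :=
    fun x => exists_res x.1 x.2 M q hq hq0 hM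
  choose h hh using hex
  refine ⟨h, ?_⟩
  have h0 : pal (M + 1) = palin (M + 1) := rfl
  have h1 : ((pal (M + 1)).filter (fun n => good n ∧ q ∣ n)).card =
      ∑ l ∈ Icc 1 9, ((univ : Finset (Fin (M + 1) → Fin 10)).filter
        (fun m => good (pvl l (M + 1) m) ∧ q ∣ pvl l (M + 1) m)).card := by
    rw [h0, palin_eq (M + 1) (by omega), filter_image, card_image_of_injOn]
    · rw [card_filter, sum_product]
      apply sum_congr rfl
      intro l _
      rw [← card_filter]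
    · intro x hx y hy hxy
      rw [mem_coe, mem_filter, mem_product, mem_Icc] at hx hy
      exact pvl_inj (M + 1) (by omega) (show x.1 ≤ 9 from hx.1.1.2) (show y.1 ≤ 9 from hy.1.1.2) hxy
  rw [h1, Gp, sum_filter, sum_product]
  push_cast
  refine sum_congr rfl fun l _ => ?_
  rw [card_snoc]
  push_cast
  rw [← Fin.sum_univ_eq_sum_range
    (fun j => if good (l + 10 * j) then cnt M q (h (l, j)) else 0) 10]
  refine sum_congr rfl fun j _ => ?_
  have h2 : ∀ m : Fin M → Fin 10, good (pvl l (M + 1) (Fin.snoc (α := fun _ => Fin 10) m j)) ↔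
      good (l + 10 * j) := by
    intro m
    obtain ⟨t, ht⟩ := pvl_mod l M j m hM
    rw [ht, good_mod]
  split_ifs with h3
  · rw [cnt]
    congr 2
    apply filter_congr
    intro m _
    rw [h2 m, hh (l, (j : ℕ)) j rfl m]
    exact ⟨fun h => h.2, fun h => ⟨h3, h⟩⟩
  · rw [Nat.cast_eq_zero, card_eq_zero, filter_eq_empty_iff]
    intro m _ h4
    exact h3 ((h2 m).1 h4.1)

/-- the small square divisors -/
theorem small_d (A : ℕ) : ∀ᶠ L : ℕ in atTop,
    ∑ d ∈ (Ico 1 (10 ^ (L / 4))).filter (fun d => d.Coprime 10),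
      |(G L d : ℝ) - 68 * 10 ^ (L - 1) / (d : ℝ) ^ 2| ≤ 10 ^ L / (L : ℝ) ^ A := by
  have hBV := BV2 (A + 1)
  have hsh : Tendsto (fun L : ℕ => L - 1) atTop atTop := tendsto_sub_atTop_nat 1
  have hBV' := hsh.eventually hBV
  filter_upwards [hBV', eventually_ge_atTop 100,
    eventually_ge_atTop (2 ^ (A + 1) * 7)] with L hL hL6 hLA
  obtain ⟨M, rfl⟩ : ∃ M, L = M + 1 := ⟨L - 1, by omega⟩
  rw [Nat.add_sub_cancel] at hL ⊢
  set z := 10 ^ ((M + 1) / 4) with hz
  have hM : 1 ≤ M := by omega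
  have hex : ∀ q : ℕ, ∃ h : ℕ × ℕ → ℕ, q.Coprime 10 → 0 < q →
      (((pal (M + 1)).filter (fun n => good n ∧ q ∣ n)).card : ℝ) = ∑ x ∈ Gp, cnt M q (h x) := by
    intro q
    by_cases h1 : q.Coprime 10 ∧ 0 < q
    · obtain ⟨h, hh⟩ := good_card M q hM h1.1 h1.2
      exact ⟨h, fun _ _ => hh⟩
    · exact ⟨fun _ => 0, fun h2 h3 => absurd ⟨h2, h3⟩ h1⟩
  choose h hh using hex
  have h1 : ∀ d ∈ (Ico 1 z).filter (fun d => d.Coprime 10),
      |(G (M + 1) d : ℝ) - 68 * 10 ^ M / (d : ℝ) ^ 2| ≤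
        ∑ x ∈ Gp, |cnt M (d ^ 2) (h (d ^ 2) x) - 10 ^ M / ((d ^ 2 : ℕ) : ℝ)| := by
    intro d hd
    rw [mem_filter, mem_Ico] at hd
    rw [G, hh (d ^ 2) (Nat.Coprime.pow_left 2 hd.2) (by
      have := hd.1.1
      positivity)]
    have h2 : (68 : ℝ) * 10 ^ M / (d : ℝ) ^ 2 = ∑ _x ∈ Gp, (10 : ℝ) ^ M / ((d ^ 2 : ℕ) : ℝ) := by
      rw [sum_const, Gp_card, nsmul_eq_mul]
      push_cast
      ring
    rw [h2, ← sum_sub_distrib]
    exact abs_sum_le_sum_abs _ _
  refine (sum_le_sum h1).trans ?_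
  rw [sum_comm]
  have h2 : ∀ x ∈ Gp, ∑ d ∈ (Ico 1 z).filter (fun d => d.Coprime 10),
      |cnt M (d ^ 2) (h (d ^ 2) x) - 10 ^ M / ((d ^ 2 : ℕ) : ℝ)| ≤ 10 ^ M / (M : ℝ) ^ (A + 1) := by
    intro x _
    refine le_trans ?_ (hL (fun q => h q x))
    have e1 : ∑ d ∈ (Ico 1 z).filter (fun d => d.Coprime 10),
        |cnt M (d ^ 2) (h (d ^ 2) x) - 10 ^ M / ((d ^ 2 : ℕ) : ℝ)| =
        ∑ q ∈ ((Ico 1 z).filter (fun d => d.Coprime 10)).image (fun d => d ^ 2),
          |cnt M q (h q x) - 10 ^ M / (q : ℝ)| := by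
      rw [sum_image]
      intro a _ b _ hab
      exact (Nat.pow_left_injective (by norm_num : 2 ≠ 0)) hab
    rw [e1]
    calc ∑ q ∈ ((Ico 1 z).filter (fun d => d.Coprime 10)).image (fun d => d ^ 2),
          |cnt M q (h q x) - 10 ^ M / (q : ℝ)|
        ≤ ∑ q ∈ (Icc 1 ⌊(10 : ℝ) ^ ((3 / 5 : ℝ) * M)⌋₊).filter (fun q => q.Coprime 10),
          |cnt M q (h q x) - 10 ^ M / (q : ℝ)| := by
          apply sum_le_sum_of_subset_of_nonneg
          · intro q hq
            rw [mem_image] at hq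
            obtain ⟨d, hd, rfl⟩ := hq
            rw [mem_filter, mem_Ico] at hd
            rw [mem_filter, mem_Icc]
            have k0 : 0 < d := hd.1.1
            refine ⟨⟨Nat.one_le_pow _ _ k0, ?_⟩, Nat.Coprime.pow_left 2 hd.2⟩
            apply Nat.le_floor
            have k1 : d ^ 2 ≤ z ^ 2 := Nat.pow_le_pow_left hd.1.2.le 2
            have k2 : ((d ^ 2 : ℕ) : ℝ) ≤ ((z ^ 2 : ℕ) : ℝ) := by exact_mod_cast k1
            refine k2.trans ?_
            rw [hz, ← pow_mul]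
            push_cast
            rw [← Real.rpow_natCast]
            apply Real.rpow_le_rpow_of_exponent_le (by norm_num)
            have k3 : 5 * ((M + 1) / 4 * 2) ≤ 3 * M := by omega
            have k4 : (5 : ℝ) * (((M + 1) / 4 * 2 : ℕ) : ℝ) ≤ 3 * M := by exact_mod_cast k3
            linarith
          · intro _ _ _; positivity
      _ ≤ _ := by
          refine sum_le_sum fun q hq => ?_
          rw [mem_filter, mem_Icc] at hq
          have h3 : (1 : ℝ) ≤ (q.divisors.card : ℝ) ^ 2 := by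
            have h4 : 1 ≤ q.divisors.card := Finset.card_pos.2 ⟨1, by
              rw [Nat.mem_divisors]; exact ⟨one_dvd _, by omega⟩⟩
            have h5 : (1 : ℝ) ≤ q.divisors.card := by exact_mod_cast h4
            nlinarith
          exact le_mul_of_one_le_left (abs_nonneg _) h3
  refine (sum_le_sum h2).trans ?_
  rw [sum_const, Gp_card, nsmul_eq_mul]
  push_cast
  have hMR : (1 : ℝ) ≤ M := by exact_mod_cast hM
  have hM0 : (0 : ℝ) < M := by linarith
  have k1 : ((M : ℝ) + 1) ^ A ≤ (2 * M) ^ A := pow_le_pow_left₀ (by positivity) (by linarith) A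
  have k2 : (2 : ℝ) ^ (A + 1) * 7 ≤ M + 1 := by exact_mod_cast hLA
  rw [← mul_div_assoc, div_le_div_iff₀ (by positivity) (by positivity)]
  calc 68 * 10 ^ M * ((M : ℝ) + 1) ^ A ≤ 68 * 10 ^ M * (2 * M) ^ A := by gcongr
    _ = (6.8 * 2 ^ A) * (10 ^ (M + 1) * M ^ A) := by rw [mul_pow]; ring
    _ ≤ M * (10 ^ (M + 1) * M ^ A) := by
        apply mul_le_mul_of_nonneg_right _ (by positivity)
        have k3 : (1 : ℝ) ≤ 2 ^ A := one_le_pow₀ (by norm_num)
        rw [pow_succ] at k2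
        linarith
    _ = _ := by ring

end Pool.Agent.Helper94.SQ
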