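import Pool.Graph.R_pool_sql_team_seeded_2aa45f1a.Q26.PL.L
import Pool.Agent.Helper94.SQ.Pars
import Pool.Agent.Helper94.SQ.Small

/-!
Palindromes which are products of at most four distinct primes.
-/

set_option autoImplicit false

namespace Pool.Agent.Helper94.SQ

open Finset Filter Topology Pool.Agent.H476R2.Pal

theorem inv_sq_sum {y z : ℕ} (hy : 2 ≤ y) (hz : y ≤ z) :
    ∑ d ∈ Ico y z, 1 / (d : ℝ) ^ 2 ≤ 2 / (y : ℝ) := by
  rcases eq_or_lt_of_le hz with h | h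
  · subst h
    rw [Ico_self, sum_empty]
    positivity
  have h5 := sum_Ioc_inv_sq_le_sub (α := ℝ) (k := y - 1) (n := z - 1) (by omega) (by omega)
  have h6 : Ioc (y - 1) (z - 1) = Ico y z := by
    ext x; rw [mem_Ioc, mem_Ico]; omega
  rw [h6] at h5
  calc ∑ d ∈ Ico y z, 1 / (d : ℝ) ^ 2 = ∑ d ∈ Ico y z, ((d : ℝ) ^ 2)⁻¹ :=
        sum_congr rfl fun d _ => one_div _
    _ ≤ ((y - 1 : ℕ) : ℝ)⁻¹ := by
        refine h5.trans ?_
        have : (0 : ℝ) ≤ ((z - 1 : ℕ) : ℝ)⁻¹ := by positivity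
        linarith
    _ ≤ 2 / y := by
        have h7 : ((y - 1 : ℕ) : ℝ) = y - 1 := by rw [Nat.cast_sub (by omega)]; simp
        have h8 : (2 : ℝ) ≤ y := by exact_mod_cast hy
        rw [h7, inv_eq_one_div, div_le_div_iff₀ (by linarith) (by linarith)]
        linarith

/-- few palindromes are divisible by the square of an integer of medium or large size -/
theorem bad_sum (c : ℝ) (hc : 0 < c) : ∀ᶠ L : ℕ in atTop,
    ∑ d ∈ Ico (10 ^ (L / 14)) (10 ^ (L + 1)), (G L d : ℝ) ≤ c * 10 ^ L / L := by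
  filter_upwards [tail pars 2, small_d 2, small 14 2, eventually_ge_atTop 100,
    eventually_ge_atTop ⌈3 / c⌉₊] with L h1 h2 h3 hL hLc
  have hLR : (100 : ℝ) ≤ L := by exact_mod_cast hL
  have hLc' : 3 / c ≤ L := Nat.ceil_le.1 hLc
  have hyz : 10 ^ (L / 14) ≤ 10 ^ (L / 4) := Nat.pow_le_pow_right (by norm_num) (by omega)
  have hzY : 10 ^ (L / 4) ≤ 10 ^ (L + 1) := Nat.pow_le_pow_right (by norm_num) (by omega)
  have hy : 2 ≤ 10 ^ (L / 14) := by
    calc 2 ≤ 10 ^ 1 := by norm_num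
      _ ≤ 10 ^ (L / 14) := Nat.pow_le_pow_right (by norm_num) (by omega)
  rw [← sum_Ico_consecutive _ hyz hzY]
  have e1 : ∑ d ∈ Ico (10 ^ (L / 14)) (10 ^ (L / 4)), (G L d : ℝ) ≤
      10 ^ L / (L : ℝ) ^ 2 + 10 ^ L / (L : ℝ) ^ 2 := by
    have e2 : ∑ d ∈ Ico (10 ^ (L / 14)) (10 ^ (L / 4)), (G L d : ℝ) ≤
        ∑ d ∈ Ico ((10 : ℕ) ^ (L / 14)) (10 ^ (L / 4)),
          ((if d.Coprime 10 then |(G L d : ℝ) - 68 * 10 ^ (L - 1) / (d : ℝ) ^ 2| else 0) +
          68 * 10 ^ (L - 1) * (1 / (d : ℝ) ^ 2)) := by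
      refine sum_le_sum fun d _ => ?_
      split_ifs with h
      · have := le_abs_self ((G L d : ℝ) - 68 * 10 ^ (L - 1) / (d : ℝ) ^ 2)
        rw [mul_one_div]
        linarith
      · rw [G_zero h, Nat.cast_zero]
        positivity
    refine e2.trans ?_
    rw [sum_add_distrib, ← mul_sum]
    apply add_le_add
    · refine le_trans ?_ h2
      rw [sum_filter]
      apply sum_le_sum_of_subset_of_nonneg
      · exact Ico_subset_Ico (by omega) le_rfl
      · intro d _ _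
        split_ifs <;> positivity
    · refine le_trans ?_ h3
      have hpow : (10 : ℝ) ^ L = 10 * 10 ^ (L - 1) := by
        rw [← pow_succ']; congr 1; omega
      calc 68 * (10 : ℝ) ^ (L - 1) * ∑ d ∈ Ico ((10 : ℕ) ^ (L / 14)) (10 ^ (L / 4)), 1 / (d : ℝ) ^ 2
          ≤ 68 * (10 : ℝ) ^ (L - 1) * (2 / ((10 ^ (L / 14) : ℕ) : ℝ)) := by
            apply mul_le_mul_of_nonneg_left (inv_sq_sum hy hyz) (by positivity)
        _ = 13.6 * 10 ^ L / 10 ^ (L / 14) := by rw [hpow]; push_cast; ring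
        _ ≤ 14 * (L + 1) * 10 ^ L / 10 ^ (L / 120) := by
            apply div_le_div₀ (by positivity) _ (by positivity)
            · exact pow_le_pow_right₀ (by norm_num) (by omega)
            · have : (0 : ℝ) < 10 ^ L := by positivity
              nlinarith
  calc _ ≤ 10 ^ L / (L : ℝ) ^ 2 + 10 ^ L / (L : ℝ) ^ 2 + 10 ^ L / (L : ℝ) ^ 2 := add_le_add e1 h1
    _ = 3 * 10 ^ L / (L : ℝ) ^ 2 := by ring
    _ ≤ c * 10 ^ L / L := by
        rw [div_le_div_iff₀ (by positivity) (by positivity)]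
        have h4 : 3 ≤ c * L := by
          rw [div_le_iff₀ hc] at hLc'
          linarith
        calc 3 * 10 ^ L * (L : ℝ) ≤ c * L * 10 ^ L * (L : ℝ) := by gcongr
          _ = _ := by ring

/-- the palindromes with `2 N + 1` digits in a residue class which are products of at most four
distinct primes larger than `10 ^ (N / 13)` -/
noncomputable def Fs (M a N : ℕ) : Finset ℕ := (range (10 ^ (2 * N + 1))).filter (fun n =>
  10 ^ (2 * N) ≤ n ∧ (Nat.digits 10 n).reverse = Nat.digits 10 n ∧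
  (n ≡ a [MOD M] ∧ Squarefree n) ∧ n.primeFactorsList.length ≤ 4 ∧
  ∀ p ∈ n.primeFactorsList, ((10 : ℕ) : ℝ) ^ ((1 / 13 : ℝ) * N) < p)

theorem four_sf {M a : ℕ} (hM : 0 < M) (ha : a.Coprime M) :
    ∃ c : ℝ, 0 < c ∧ ∀ᶠ N : ℕ in atTop, c * ((10 : ℕ) : ℝ) ^ N / N ≤ ((Fs M a N).card : ℝ) := by
  classical
  obtain ⟨c, hc, h⟩ := Pool.Agent.Q26.PL.four10 hM ha
  refine ⟨c / 2, by positivity, ?_⟩
  filter_upwards [h, bad_sum (c / 2) (by positivity), eventually_ge_atTop 200] with N h1 h2 hN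
  set S := (range (10 ^ (2 * N + 1))).filter (fun n => 10 ^ (2 * N) ≤ n ∧
      (Nat.digits 10 n).reverse = Nat.digits 10 n ∧ n ≡ a [MOD M] ∧ n.primeFactorsList.length ≤ 4 ∧
      ∀ p ∈ n.primeFactorsList, ((10 : ℕ) : ℝ) ^ ((1 / 13 : ℝ) * N) < p) with hS
  have hpow : ∀ p : ℕ, ((10 : ℕ) : ℝ) ^ ((1 / 13 : ℝ) * N) < p → 10 ^ (N / 14) ≤ p := by
    intro p hp
    have k1 : (14 : ℝ) * ((N / 14 : ℕ) : ℝ) ≤ N := by exact_mod_cast Nat.mul_div_le N 14
    have k2 : (0 : ℝ) ≤ N := Nat.cast_nonneg N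
    have k3 : ((10 ^ (N / 14) : ℕ) : ℝ) ≤ ((10 : ℕ) : ℝ) ^ ((1 / 13 : ℝ) * N) := by
      push_cast
      rw [← Real.rpow_natCast]
      apply Real.rpow_le_rpow_of_exponent_le (by norm_num)
      linarith
    have k4 : ((10 ^ (N / 14) : ℕ) : ℝ) ≤ p := k3.trans hp.le
    exact_mod_cast k4
  have hbig : 10 ≤ 10 ^ (N / 14) := by
    calc 10 = 10 ^ 1 := by norm_num
      _ ≤ 10 ^ (N / 14) := Nat.pow_le_pow_right (by norm_num) (by omega)
  have hsplit : (S.card : ℝ) ≤ ((Fs M a N).card : ℝ) + ∑ d ∈ Ico (10 ^ (N / 14)) (10 ^ (N + 1)), (G N d : ℝ) := by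
    have e1 : S ⊆ Fs M a N ∪ (Ico (10 ^ (N / 14)) (10 ^ (N + 1))).biUnion
        (fun d => (pal N).filter (fun n => good n ∧ d ^ 2 ∣ n)) := by
      intro n hn
      rw [hS, mem_filter, mem_range] at hn
      obtain ⟨k1, k2, k3, k4, k5, k6⟩ := hn
      have hn0 : n ≠ 0 := by
        have : 0 < 10 ^ (2 * N) := by positivity
        omega
      rw [mem_union]
      by_cases hsq : Squarefree n
      · left
        rw [Fs, mem_filter, mem_range]
        exact ⟨k1, k2, k3, ⟨k4, hsq⟩, k5, k6⟩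
      · right
        rw [Nat.squarefree_iff_prime_squarefree] at hsq
        push Not at hsq
        obtain ⟨p, hp, hpn⟩ := hsq
        rw [mem_biUnion]
        have hp1 : p ∣ n := (Dvd.intro p rfl).trans hpn
        have hmem : ∀ r : ℕ, r.Prime → r ∣ n → 10 ^ (N / 14) ≤ r := fun r hr hrn =>
          hpow r (k6 r ((Nat.mem_primeFactorsList hn0).2 ⟨hr, hrn⟩))
        refine ⟨p, ?_, ?_⟩
        · rw [mem_Ico]
          refine ⟨hmem p hp hp1, ?_⟩
          have h3 := Nat.le_of_dvd (Nat.pos_of_ne_zero hn0) hpn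
          have h4 : 10 ^ (2 * N + 1) ≤ (10 ^ (N + 1)) ^ 2 := by
            rw [← pow_mul]
            exact Nat.pow_le_pow_right (by norm_num) (by omega)
          apply lt_of_pow_lt_pow_left₀ 2 (Nat.zero_le _)
          rw [pow_two p]
          omega
        · rw [mem_filter, pal, mem_filter, mem_range]
          refine ⟨⟨k1, k2, k3⟩, ⟨?_, ?_⟩, by rwa [pow_two]⟩
          · intro h4
            have := hmem 2 Nat.prime_two ((by norm_num : 2 ∣ 4).trans h4)
            omega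
          · intro h4
            have := hmem 5 Nat.prime_five ((by norm_num : 5 ∣ 25).trans h4)
            omega
    have e2 := (card_le_card e1).trans (card_union_le _ _)
    have e3 := e2.trans (Nat.add_le_add_left card_biUnion_le _)
    have e4 : ((S.card : ℕ) : ℝ) ≤ (((Fs M a N).card +
        ∑ d ∈ Ico (10 ^ (N / 14)) (10 ^ (N + 1)), G N d : ℕ) : ℝ) := by exact_mod_cast e3
    push_cast at e4
    exact e4
  have h3 := h1.trans hsplit
  push_cast at h3 ⊢
  have h4 : c * (10 : ℝ) ^ N / N = c / 2 * 10 ^ N / N + c / 2 * 10 ^ N / N := by ring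
  linarith

theorem four_sfx {M a : ℕ} (hM : 0 < M) (ha : a.Coprime M) :
    ∃ c' : ℝ, 0 < c' ∧ ∀ᶠ x : ℕ in atTop, ∀ G : Finset ℕ, (∀ n : ℕ, n ∈ Icc 1 x →
        (Nat.digits 10 n).reverse = Nat.digits 10 n → (n ≡ a [MOD M] ∧ Squarefree n) →
        n.primeFactorsList.length ≤ 4 →
        (∀ p ∈ n.primeFactorsList, (x : ℝ) ^ (1 / 30 : ℝ) < p) → n ∈ G) →
      c' * (((Icc 1 x).filter (fun n => (Nat.digits 10 n).reverse = Nat.digits 10 n)).card : ℝ) / Real.log x ≤
      (G.card : ℝ) := by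
  classical
  obtain ⟨c, hc0, hc⟩ := four_sf hM ha
  exact Pool.Agent.Q26.PL.to_xQ (b := 10) (r := 4) (by norm_num) (fun n => n ≡ a [MOD M] ∧ Squarefree n)
    hc0 (Fs M a) (fun N n hn => by
      rw [Fs, mem_filter, mem_range] at hn
      exact hn) hc

end Pool.Agent.Helper94.SQ
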