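import Mathlib

/-!
Square roots modulo powers of ten.
-/

set_option autoImplicit false

namespace Pool.Agent.Helper94.SQ

open Finset

theorem five_dvd {r : ℕ} {d e : ℤ} (he : ¬ (5 : ℤ) ∣ e) (h : (5 : ℤ) ^ r ∣ (d - e) * (d + e)) :
    (5 : ℤ) ^ r ∣ d - e ∨ (5 : ℤ) ^ r ∣ d + e := by
  have hp : Prime (5 : ℤ) := by norm_num
  by_cases h1 : (5 : ℤ) ∣ d - e
  · left
    have h2 : ¬ (5 : ℤ) ∣ d + e := by
      intro h3
      have h4 : (5 : ℤ) ∣ 2 * e := by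
        have := dvd_sub h3 h1
        have e1 : d + e - (d - e) = 2 * e := by ring
        rwa [e1] at this
      rcases hp.dvd_or_dvd h4 with h5 | h5
      · norm_num at h5
      · exact he h5
    have h3 : IsCoprime ((5 : ℤ) ^ r) (d + e) :=
      IsCoprime.pow_left ((Prime.coprime_iff_not_dvd hp).2 h2)
    exact h3.dvd_of_dvd_mul_right h
  · right
    have h3 : IsCoprime ((5 : ℤ) ^ r) (d - e) :=
      IsCoprime.pow_left ((Prime.coprime_iff_not_dvd hp).2 h1)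
    exact h3.dvd_of_dvd_mul_left h

theorem two_dvd {r : ℕ} {d e : ℤ} (hd : ¬ (2 : ℤ) ∣ d) (he : ¬ (2 : ℤ) ∣ e)
    (h : (2 : ℤ) ^ (r + 1) ∣ (d - e) * (d + e)) :
    (2 : ℤ) ^ r ∣ d - e ∨ (2 : ℤ) ^ r ∣ d + e := by
  have hp : Prime (2 : ℤ) := Int.prime_two
  rcases Nat.eq_zero_or_pos r with h0 | h0
  · subst h0; left; simp
  obtain ⟨t, rfl⟩ : ∃ t, r = t + 1 := ⟨r - 1, by omega⟩
  obtain ⟨a, ha⟩ : (2 : ℤ) ∣ d - e := by omega
  obtain ⟨b, hb⟩ : (2 : ℤ) ∣ d + e := by omega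
  have hab : a + b = d := by omega
  have h1 : (2 : ℤ) ^ t ∣ a * b := by
    rw [ha, hb] at h
    have e1 : (2 : ℤ) ^ (t + 1 + 1) = 4 * 2 ^ t := by ring
    have e2 : 2 * a * (2 * b) = 4 * (a * b) := by ring
    rw [e1, e2] at h
    exact (mul_dvd_mul_iff_left (by norm_num : (4 : ℤ) ≠ 0)).1 h
  by_cases h2 : (2 : ℤ) ∣ a
  · have h3 : ¬ (2 : ℤ) ∣ b := by omega
    left
    have h4 : IsCoprime ((2 : ℤ) ^ t) b := IsCoprime.pow_left ((Prime.coprime_iff_not_dvd hp).2 h3)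
    rw [ha, pow_succ, mul_comm]
    exact mul_dvd_mul_left 2 (h4.dvd_of_dvd_mul_right h1)
  · right
    have h4 : IsCoprime ((2 : ℤ) ^ t) a := IsCoprime.pow_left ((Prime.coprime_iff_not_dvd hp).2 h2)
    rw [hb, pow_succ, mul_comm]
    exact mul_dvd_mul_left 2 (h4.dvd_of_dvd_mul_left h1)

/-- At most four integers of an interval of length `2 ^ r 5 ^ (r+1)` coprime to `10` have the
same square modulo `10 ^ (r+1)`. -/
theorem four (r e : ℕ) (S : Finset ℕ) (hS : ∀ d ∈ S, e ≤ d ∧ d < e + 2 ^ r * 5 ^ (r + 1))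
    (hc : ∀ d ∈ S, d.Coprime 10)
    (hsq : ∀ d ∈ S, ∀ d' ∈ S, ((10 : ℤ) ^ (r + 1)) ∣ (d : ℤ) ^ 2 - (d' : ℤ) ^ 2) : S.card ≤ 4 := by
  classical
  rcases S.eq_empty_or_nonempty with h0 | ⟨e0, he0⟩
  · rw [h0]; simp
  have hodd : ∀ d ∈ S, ¬ (2 : ℤ) ∣ d := by
    intro d hd h
    have h1 := hc d hd
    have h2 : 2 ∣ d := by exact_mod_cast h
    have := Nat.dvd_gcd h2 (by norm_num : 2 ∣ 10)
    rw [Nat.Coprime] at h1
    rw [h1] at this
    norm_num at this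
  have h5 : ∀ d ∈ S, ¬ (5 : ℤ) ∣ d := by
    intro d hd h
    have h1 := hc d hd
    have h2 : 5 ∣ d := by exact_mod_cast h
    have := Nat.dvd_gcd h2 (by norm_num : 5 ∣ 10)
    rw [Nat.Coprime] at h1
    rw [h1] at this
    norm_num at this
  have hfac : ∀ d ∈ S, (10 : ℤ) ^ (r + 1) ∣ ((d : ℤ) - e0) * (d + e0) := by
    intro d hd
    have := hsq d hd e0 he0
    have e1 : (d : ℤ) ^ 2 - (e0 : ℤ) ^ 2 = ((d : ℤ) - e0) * (d + e0) := by ring
    rwa [e1] at this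
  have e10 : (10 : ℤ) ^ (r + 1) = 2 ^ (r + 1) * 5 ^ (r + 1) := by
    rw [← mul_pow]; norm_num
  have hf5 : ∀ d ∈ S, (5 : ℤ) ^ (r + 1) ∣ (d : ℤ) - e0 ∨ (5 : ℤ) ^ (r + 1) ∣ (d : ℤ) + e0 := by
    intro d hd
    apply five_dvd (h5 e0 he0)
    exact (Dvd.intro_left _ e10.symm).trans (hfac d hd)
  have hf2 : ∀ d ∈ S, (2 : ℤ) ^ r ∣ (d : ℤ) - e0 ∨ (2 : ℤ) ^ r ∣ (d : ℤ) + e0 := by
    intro d hd
    apply two_dvd (hodd d hd) (hodd e0 he0)
    exact (Dvd.intro _ e10.symm).trans (hfac d hd)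
  let f : ℕ → Bool × Bool := fun d =>
    (decide ((5 : ℤ) ^ (r + 1) ∣ (d : ℤ) - e0), decide ((2 : ℤ) ^ r ∣ (d : ℤ) - e0))
  have hinj : Set.InjOn f S := by
    intro d hd d' hd' hff
    simp only [f, Prod.mk.injEq, decide_eq_decide] at hff
    obtain ⟨g5, g2⟩ := hff
    have k5 : (5 : ℤ) ^ (r + 1) ∣ (d : ℤ) - d' := by
      by_cases h1 : (5 : ℤ) ^ (r + 1) ∣ (d : ℤ) - e0
      · have h2 := g5.1 h1
        have := dvd_sub h1 h2
        have e1 : (d : ℤ) - e0 - (d' - e0) = d - d' := by ring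
        rwa [e1] at this
      · have h2 := (hf5 d hd).resolve_left h1
        have h3 := (hf5 d' hd').resolve_left (fun h => h1 (g5.2 h))
        have := dvd_sub h2 h3
        have e1 : (d : ℤ) + e0 - (d' + e0) = d - d' := by ring
        rwa [e1] at this
    have k2 : (2 : ℤ) ^ r ∣ (d : ℤ) - d' := by
      by_cases h1 : (2 : ℤ) ^ r ∣ (d : ℤ) - e0
      · have h2 := g2.1 h1
        have := dvd_sub h1 h2
        have e1 : (d : ℤ) - e0 - (d' - e0) = d - d' := by ring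
        rwa [e1] at this
      · have h2 := (hf2 d hd).resolve_left h1
        have h3 := (hf2 d' hd').resolve_left (fun h => h1 (g2.2 h))
        have := dvd_sub h2 h3
        have e1 : (d : ℤ) + e0 - (d' + e0) = d - d' := by ring
        rwa [e1] at this
    have hcop : IsCoprime ((2 : ℤ) ^ r) ((5 : ℤ) ^ (r + 1)) :=
      IsCoprime.pow (by norm_num : IsCoprime (2 : ℤ) 5)
    have k : ((2 : ℤ) ^ r * 5 ^ (r + 1)) ∣ (d : ℤ) - d' := hcop.mul_dvd k2 k5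
    have b1 := hS d hd
    have b2 := hS d' hd'
    by_contra hne
    have hne' : (d : ℤ) - d' ≠ 0 := by
      intro h
      apply hne
      omega
    have h6 := Int.le_of_dvd (abs_pos.2 hne') ((dvd_abs _ _).2 k)
    have h7 : |(d : ℤ) - d'| < (2 : ℤ) ^ r * 5 ^ (r + 1) := by
      have c1 : (d : ℤ) < e + 2 ^ r * 5 ^ (r + 1) := by exact_mod_cast b1.2
      have c2 : (d' : ℤ) < e + 2 ^ r * 5 ^ (r + 1) := by exact_mod_cast b2.2
      have c3 : (e : ℤ) ≤ d := by exact_mod_cast b1.1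
      have c4 : (e : ℤ) ≤ d' := by exact_mod_cast b2.1
      rw [abs_lt]
      constructor <;> linarith
    linarith
  calc S.card = (S.image f).card := (card_image_of_injOn hinj).symm
    _ ≤ (univ : Finset (Bool × Bool)).card := card_le_card (subset_univ _)
    _ = 4 := by decide

end Pool.Agent.Helper94.SQ
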