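import Pool.Agent.Helper94.SQ.Count
import Pool.Agent.Helper94.SQ.Sqrt

/-!
Sums over short blocks of denominators.
-/

set_option autoImplicit false

namespace Pool.Agent.Helper94.SQ

open Finset Pool.Agent.Helper112 Pool.Agent.H476R2.Pal

theorem ee_lip (a b : ℝ) : ‖ee a - ee b‖ ≤ 2 * Real.pi * |a - b| := by
  have h1 : ee a - ee b = ee b * (ee (a - b) - 1) := by
    rw [mul_sub, ← ls_ee_add, mul_one]
    congr 2
    ring
  rw [h1, norm_mul, ls_norm_ee, one_mul, ls_norm_ee_sub_one, abs_mul]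
  have h2 : |Real.sin (Real.pi * (a - b))| ≤ |Real.pi * (a - b)| := Real.abs_sin_le_abs
  rw [abs_mul, abs_of_pos Real.pi_pos] at h2
  rw [abs_of_pos (by norm_num : (0 : ℝ) < 2)]
  linarith

theorem ph_lip (x y : ℝ) : |ph x - ph y| ≤ 9 * Real.pi * |x - y| := by
  unfold ph
  rw [← sub_div, abs_div, abs_of_pos (by norm_num : (0 : ℝ) < 10), div_le_iff₀ (by norm_num)]
  refine (abs_norm_sub_norm_le _ _).trans ?_
  rw [← sum_sub_distrib]
  refine (norm_sum_le _ _).trans ?_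
  calc ∑ m ∈ range 10, ‖ee (m * x) - ee (m * y)‖
      ≤ ∑ m ∈ range 10, (m : ℝ) * (2 * Real.pi * |x - y|) := by
        refine sum_le_sum fun m _ => (ee_lip _ _).trans (le_of_eq ?_)
        rw [← mul_sub, abs_mul, Nat.abs_cast]
        ring
    _ = 9 * Real.pi * |x - y| * 10 := by
        simp only [sum_range_succ, range_zero, sum_empty]
        push_cast
        ring

theorem prod_diff (a b : ℕ → ℝ) (ha : ∀ i, 0 ≤ a i) (ha1 : ∀ i, a i ≤ 1) (hb : ∀ i, 0 ≤ b i)
    (hb1 : ∀ i, b i ≤ 1) (J : ℕ) :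
    ∏ i ∈ range J, a i ≤ ∏ i ∈ range J, b i + ∑ i ∈ range J, |a i - b i| := by
  induction J with
  | zero => simp
  | succ J ih =>
    rw [prod_range_succ, prod_range_succ, sum_range_succ]
    have h1 : 0 ≤ ∏ i ∈ range J, a i := prod_nonneg fun _ _ => ha _
    have h2 : ∏ i ∈ range J, b i ≤ 1 := prod_le_one (fun _ _ => hb _) fun _ _ => hb1 _
    have h3 : 0 ≤ ∏ i ∈ range J, b i := prod_nonneg fun _ _ => hb _
    have h4 : 0 ≤ ∑ i ∈ range J, |a i - b i| := sum_nonneg fun _ _ => abs_nonneg _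
    calc (∏ i ∈ range J, a i) * a J ≤ (∏ i ∈ range J, b i + ∑ i ∈ range J, |a i - b i|) * a J :=
          mul_le_mul_of_nonneg_right ih (ha J)
      _ = (∏ i ∈ range J, b i) * b J + (∏ i ∈ range J, b i) * (a J - b J) +
          (∑ i ∈ range J, |a i - b i|) * a J := by ring
      _ ≤ (∏ i ∈ range J, b i) * b J + |a J - b J| + ∑ i ∈ range J, |a i - b i| := by
          have h5 : (∏ i ∈ range J, b i) * (a J - b J) ≤ |a J - b J| := by
            calc (∏ i ∈ range J, b i) * (a J - b J) ≤ (∏ i ∈ range J, b i) * |a J - b J| :=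
                  mul_le_mul_of_nonneg_left (le_abs_self _) h3
              _ ≤ 1 * |a J - b J| := mul_le_mul_of_nonneg_right h2 (abs_nonneg _)
              _ = _ := one_mul _
          have h6 : (∑ i ∈ range J, |a i - b i|) * a J ≤ ∑ i ∈ range J, |a i - b i| :=
            mul_le_of_le_one_right h4 (ha1 J)
          linarith
      _ = _ := by ring

/-- the product attached to `d` -/
noncomputable def P (J s h w : ℕ) (d : ℝ) : ℝ :=
  ∏ i ∈ range J, ph (h * (-((w : ℝ) / 10 ^ (i + 1)) + lam s i / d ^ 2))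

theorem P_nonneg (J s h w : ℕ) (d : ℝ) : 0 ≤ P J s h w d := prod_nonneg fun _ _ => ph_nonneg _

theorem P_le_one (J s h w : ℕ) (d : ℝ) : P J s h w d ≤ 1 :=
  prod_le_one (fun _ _ => ph_nonneg _) fun _ _ => ph_le_one _

theorem P_mod (J s h w : ℕ) (d : ℝ) : P J s h w d = P J s h (w % 10 ^ J) d := by
  unfold P
  refine prod_congr rfl fun i hi => ?_
  rw [mem_range] at hi
  have h1 := Nat.div_add_mod w (10 ^ J)
  have h2 : ((w : ℕ) : ℝ) = 10 ^ J * ((w / 10 ^ J : ℕ) : ℝ) + ((w % 10 ^ J : ℕ) : ℝ) := by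
    conv_lhs => rw [← h1]
    push_cast
    ring
  have h3 : (10 : ℝ) ^ J = 10 ^ (J - (i + 1)) * 10 ^ (i + 1) := by
    rw [← pow_add]; congr 1; omega
  generalize w / 10 ^ J = k at h2
  generalize w % 10 ^ J = r at h2 ⊢
  have h4 : (h : ℝ) * (-((w : ℝ) / 10 ^ (i + 1)) + lam s i / d ^ 2) =
      h * (-((r : ℝ) / 10 ^ (i + 1)) + lam s i / d ^ 2) +
      ((-(h * (10 ^ (J - (i + 1)) * k)) : ℤ) : ℝ) := by
    rw [h2, h3]
    push_cast
    field_simp
    ring
  rw [h4, ph_add_int]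

theorem lam_nonneg (s i : ℕ) : 0 ≤ lam s i := by unfold lam; positivity

theorem lam_le (s i : ℕ) : lam s i ≤ 2 * 10 ^ (2 * s + 1) * 10 ^ i := by
  unfold lam
  have h1 : (1 : ℝ) / 10 ^ (i + 1) ≤ 1 := by
    rw [div_le_one (by positivity)]
    exact one_le_pow₀ (by norm_num)
  have h2 : (1 : ℝ) ≤ 10 ^ (2 * s + 1 + i) := one_le_pow₀ (by norm_num)
  rw [pow_add (10 : ℝ) (2 * s + 1) i] at *
  linarith

theorem geom_le (J : ℕ) : ∑ i ∈ range J, (10 : ℝ) ^ i ≤ 10 ^ J / 9 := by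
  induction J with
  | zero => norm_num
  | succ J ih =>
    rw [sum_range_succ, pow_succ]
    linarith

/-- freezing the analytic part -/
theorem freeze {J s h H w : ℕ} {D e d B : ℝ} (hD : 10 ^ (3 * J) ≤ D) (hs : 6 * 10 ^ (2 * s + 1) * H ≤ D ^ 2)
    (hh : h ≤ H) (he : D ≤ e) (hed : e ≤ d) (hdB : d ≤ e + B) (hB : 2 * B = 10 ^ J) :
    P J s h w d ≤ P J s h w e + 2 / 10 ^ J := by
  have hDpos : 0 < D := lt_of_lt_of_le (by positivity) hD
  have hepos : 0 < e := lt_of_lt_of_le hDpos he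
  have hdpos : 0 < d := lt_of_lt_of_le hepos hed
  have hBpos : 0 < B := by
    have : (0 : ℝ) < 10 ^ J := by positivity
    linarith
  have h1 := prod_diff (fun i => ph (h * (-((w : ℝ) / 10 ^ (i + 1)) + lam s i / d ^ 2)))
    (fun i => ph (h * (-((w : ℝ) / 10 ^ (i + 1)) + lam s i / e ^ 2)))
    (fun _ => ph_nonneg _) (fun _ => ph_le_one _) (fun _ => ph_nonneg _) (fun _ => ph_le_one _) J
  refine h1.trans ?_
  unfold P
  apply add_le_add_right
  -- the variation
  have h2 : |1 / d ^ 2 - 1 / e ^ 2| ≤ 10 ^ J / D ^ 3 := by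
    have e1 : 1 / d ^ 2 - 1 / e ^ 2 = -((d - e) * (1 / (d * e ^ 2) + 1 / (d ^ 2 * e))) := by
      field_simp
      ring
    rw [e1, abs_neg, abs_of_nonneg (by
      apply mul_nonneg (by linarith)
      positivity)]
    have hDd : D ≤ d := he.trans hed
    have k1 : 1 / (d * e ^ 2) ≤ 1 / D ^ 3 := by
      apply one_div_le_one_div_of_le (by positivity)
      calc D ^ 3 = D * D ^ 2 := by ring
        _ ≤ d * e ^ 2 := by
            apply mul_le_mul hDd _ (by positivity) hdpos.le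
            exact pow_le_pow_left₀ hDpos.le he 2
    have k2 : 1 / (d ^ 2 * e) ≤ 1 / D ^ 3 := by
      apply one_div_le_one_div_of_le (by positivity)
      calc D ^ 3 = D ^ 2 * D := by ring
        _ ≤ d ^ 2 * e := by
            apply mul_le_mul _ he hDpos.le (by positivity)
            exact pow_le_pow_left₀ hDpos.le hDd 2
    calc (d - e) * (1 / (d * e ^ 2) + 1 / (d ^ 2 * e)) ≤ B * (1 / D ^ 3 + 1 / D ^ 3) := by
          apply mul_le_mul (by linarith) (by linarith) (by positivity) hBpos.le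
      _ = 2 * B / D ^ 3 := by ring
      _ = 10 ^ J / D ^ 3 := by rw [hB]
  have hh' : (h : ℝ) ≤ H := by exact_mod_cast hh
  have h3 : ∀ i ∈ range J, |ph (h * (-((w : ℝ) / 10 ^ (i + 1)) + lam s i / d ^ 2)) -
      ph (h * (-((w : ℝ) / 10 ^ (i + 1)) + lam s i / e ^ 2))| ≤
      (3 * Real.pi * 10 ^ J / D) * 10 ^ i := by
    intro i _
    refine (ph_lip _ _).trans ?_
    have e1 : (h : ℝ) * (-((w : ℝ) / 10 ^ (i + 1)) + lam s i / d ^ 2) -
        h * (-((w : ℝ) / 10 ^ (i + 1)) + lam s i / e ^ 2) =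
        (h * lam s i) * (1 / d ^ 2 - 1 / e ^ 2) := by ring
    rw [e1, abs_mul, abs_of_nonneg (mul_nonneg (Nat.cast_nonneg _) (lam_nonneg s i))]
    have k1 : (h : ℝ) * lam s i ≤ D ^ 2 / 3 * 10 ^ i := by
      calc (h : ℝ) * lam s i ≤ H * (2 * 10 ^ (2 * s + 1) * 10 ^ i) :=
            mul_le_mul hh' (lam_le s i) (lam_nonneg s i) (Nat.cast_nonneg _)
        _ = (6 * 10 ^ (2 * s + 1) * H) / 3 * 10 ^ i := by ring
        _ ≤ D ^ 2 / 3 * 10 ^ i := by gcongr
    calc 9 * Real.pi * (h * lam s i * |1 / d ^ 2 - 1 / e ^ 2|)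
        ≤ 9 * Real.pi * (D ^ 2 / 3 * 10 ^ i * (10 ^ J / D ^ 3)) := by
          have := Real.pi_pos
          gcongr
      _ = _ := by field_simp; ring
  refine (sum_le_sum h3).trans ?_
  rw [← mul_sum]
  calc 3 * Real.pi * 10 ^ J / D * ∑ i ∈ range J, (10 : ℝ) ^ i
      ≤ 3 * Real.pi * 10 ^ J / D * (10 ^ J / 9) := by
        apply mul_le_mul_of_nonneg_left (geom_le J)
        have := Real.pi_pos
        positivity
    _ ≤ 3 * Real.pi * 10 ^ J / 10 ^ (3 * J) * (10 ^ J / 9) := by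
        have := Real.pi_pos
        gcongr
    _ = Real.pi / 3 / 10 ^ J := by
        rw [show 3 * J = J + J + J by ring, pow_add, pow_add]
        field_simp
        ring
    _ ≤ 2 / 10 ^ J := by
        have := Real.pi_le_four
        apply div_le_div_of_nonneg_right _ (by positivity)
        linarith

end Pool.Agent.Helper94.SQ
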