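import Pool.Agent.Helper94.SQ.Small

/-!
The number of squarefree palindromes.
-/

set_option autoImplicit false

namespace Pool.Agent.Helper94.SQ

open Finset Filter Topology Pool.Agent.Helper112 Pool.Agent.H476R2.Pal Pool.Agent.H861R2.Pal
open ArithmeticFunction

/-- the value of the singular series -/
def Cst : Prop := ∀ z : ℕ, 1 ≤ z → |∑ d ∈ (Finset.Icc 1 z).filter (fun d => d.Coprime 10),
  (ArithmeticFunction.moebius d : ℝ) / (d : ℝ) ^ 2 - 25 / (3 * Real.pi ^ 2)| ≤ 1 / (z : ℝ)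

theorem dvd_of_sq_dvd {a b d : ℕ} (ha : Squarefree a) (hb : b ≠ 0) (h : d ^ 2 ∣ b ^ 2 * a) :
    d ∣ b := by
  have ha0 : a ≠ 0 := ha.ne_zero
  have hd : d ≠ 0 := by
    rintro rfl
    rw [zero_pow (by norm_num), zero_dvd_iff] at h
    exact (mul_ne_zero (pow_ne_zero 2 hb) ha0) h
  rw [← Nat.factorization_le_iff_dvd hd hb]
  intro p
  have h1 := (Nat.factorization_le_iff_dvd (pow_ne_zero 2 hd) (mul_ne_zero (pow_ne_zero 2 hb) ha0)).2 h p
  rw [Nat.factorization_mul (pow_ne_zero 2 hb) ha0, Nat.factorization_pow, Nat.factorization_pow] at h1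
  simp only [Finsupp.add_apply, Finsupp.smul_apply, smul_eq_mul] at h1
  have h2 : a.factorization p ≤ 1 := (Nat.squarefree_iff_factorization_le_one ha0).1 ha p
  omega

theorem moebius_sum {n Y : ℕ} (hn : 0 < n) (hY : n < Y ^ 2) :
    ∑ d ∈ (Ico 1 Y).filter (fun d => d ^ 2 ∣ n), (moebius d : ℝ) = if Squarefree n then 1 else 0 := by
  obtain ⟨a, b, hab, ha⟩ := Nat.sq_mul_squarefree n
  have hb : b ≠ 0 := by
    rintro rfl
    rw [← hab] at hn
    simp at hn
  have h1 : (Ico 1 Y).filter (fun d => d ^ 2 ∣ n) = b.divisors := by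
    ext d
    rw [mem_filter, mem_Ico, Nat.mem_divisors]
    constructor
    · rintro ⟨_, h⟩
      rw [← hab] at h
      exact ⟨dvd_of_sq_dvd ha hb h, hb⟩
    · rintro ⟨h, _⟩
      have h2 : d ^ 2 ∣ n := by
        rw [← hab]
        exact (pow_dvd_pow_of_dvd h 2).mul_right a
      refine ⟨⟨Nat.pos_of_dvd_of_pos h (Nat.pos_of_ne_zero hb), ?_⟩, h2⟩
      have h3 := Nat.le_of_dvd hn h2
      exact lt_of_pow_lt_pow_left₀ 2 (Nat.zero_le _) (lt_of_le_of_lt h3 hY)
  rw [h1]
  have h2 : ∑ d ∈ b.divisors, moebius d = if b = 1 then 1 else 0 := by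
    rw [← coe_zeta_mul_apply, coe_zeta_mul_moebius, one_apply]
  have h3 : (∑ d ∈ b.divisors, (moebius d : ℝ)) = ((∑ d ∈ b.divisors, moebius d : ℤ) : ℝ) := by
    push_cast; rfl
  rw [h3, h2]
  have h4 : b = 1 ↔ Squarefree n := by
    constructor
    · rintro rfl
      rw [← hab, one_pow, one_mul]
      exact ha
    · intro h
      exact Nat.isUnit_iff.1 (h b (by rw [← hab, ← pow_two]; exact Dvd.intro a rfl))
  by_cases h5 : b = 1
  · rw [if_pos h5, if_pos (h4.1 h5)]; simp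
  · rw [if_neg h5, if_neg (fun h => h5 (h4.2 h))]; simp

theorem squarefree_good {n : ℕ} (h : Squarefree n) : good n := by
  constructor
  · intro h1
    have := h 2 (by norm_num; exact h1)
    norm_num at this
  · intro h1
    have := h 5 (by norm_num; exact h1)
    norm_num at this

/-- the number of squarefree palindromes in terms of the square divisors -/
theorem sf_eq (L : ℕ) : (((pal L).filter Squarefree).card : ℝ) =
    ∑ d ∈ Ico 1 (10 ^ (L + 1)), (moebius d : ℝ) * G L d := by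
  have h1 : (((pal L).filter Squarefree).card : ℝ) =
      ∑ n ∈ (pal L).filter good, if Squarefree n then (1 : ℝ) else 0 := by
    rw [← sum_filter, filter_filter, sum_const, nsmul_eq_mul, mul_one]
    congr 2
    apply filter_congr
    intro n _
    exact ⟨fun h => ⟨squarefree_good h, h⟩, fun h => h.2⟩
  rw [h1]
  have h2 : ∀ n ∈ (pal L).filter good, (if Squarefree n then (1 : ℝ) else 0) =
      ∑ d ∈ Ico 1 (10 ^ (L + 1)), if d ^ 2 ∣ n then (moebius d : ℝ) else 0 := by
    intro n hn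
    rw [mem_filter, pal, mem_filter, mem_range] at hn
    rw [← sum_filter, moebius_sum (lt_of_lt_of_le (by positivity) hn.1.2.1)]
    refine lt_of_lt_of_le hn.1.1 ?_
    rw [← pow_mul]
    exact Nat.pow_le_pow_right (by norm_num) (by omega)
  rw [sum_congr rfl h2, sum_comm]
  refine sum_congr rfl fun d _ => ?_
  rw [← sum_filter, sum_const, nsmul_eq_mul, mul_comm, filter_filter]
  rfl

theorem main (hP : Pars) (hC : Cst) (A : ℕ) : ∀ᶠ L : ℕ in atTop,
    |(((pal L).filter Squarefree).card : ℝ) - 170 / (3 * Real.pi ^ 2) * 10 ^ L| ≤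
      10 ^ L / (L : ℝ) ^ A := by
  have ht : Tendsto (fun L : ℕ => L / 4) atTop atTop := Nat.tendsto_div_const_atTop (by norm_num)
  filter_upwards [tail hP (A + 1), small_d (A + 1), small 14 (A + 1), eventually_ge_atTop 100]
    with L h1 h2 h3 hL
  set z := 10 ^ (L / 4) with hz
  have hz2 : 10 ≤ z := by
    calc 10 = 10 ^ 1 := by norm_num
      _ ≤ z := Nat.pow_le_pow_right (by norm_num) (by omega)
  have hLR : (100 : ℝ) ≤ L := by exact_mod_cast hL
  have hzY : z ≤ 10 ^ (L + 1) := Nat.pow_le_pow_right (by norm_num) (by omega)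
  rw [sf_eq, ← sum_Ico_consecutive _ (show 1 ≤ z by omega) hzY]
  -- the tail
  have e1 : |∑ d ∈ Ico z (10 ^ (L + 1)), (moebius d : ℝ) * G L d| ≤ 10 ^ L / (L : ℝ) ^ (A + 1) := by
    refine (abs_sum_le_sum_abs _ _).trans (le_trans (sum_le_sum fun d _ => ?_) h1)
    rw [abs_mul, Nat.abs_cast]
    have : |(moebius d : ℝ)| ≤ 1 := by exact_mod_cast abs_moebius_le_one
    exact mul_le_of_le_one_left (Nat.cast_nonneg _) this
  -- the small divisors
  have e2 : ∑ d ∈ Ico 1 z, (moebius d : ℝ) * G L d =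
      ∑ d ∈ (Ico 1 z).filter (fun d => d.Coprime 10), (moebius d : ℝ) * G L d := by
    rw [sum_filter]
    refine sum_congr rfl fun d _ => ?_
    split_ifs with h
    · rfl
    · rw [G_zero h, Nat.cast_zero, mul_zero]
  have e3 : |∑ d ∈ (Ico 1 z).filter (fun d => d.Coprime 10), (moebius d : ℝ) * G L d -
      68 * 10 ^ (L - 1) * ∑ d ∈ (Ico 1 z).filter (fun d => d.Coprime 10),
        (moebius d : ℝ) / (d : ℝ) ^ 2| ≤ 10 ^ L / (L : ℝ) ^ (A + 1) := by
    rw [mul_sum, ← sum_sub_distrib]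
    refine (abs_sum_le_sum_abs _ _).trans (le_trans (sum_le_sum fun d _ => ?_) h2)
    have : |(moebius d : ℝ)| ≤ 1 := by exact_mod_cast abs_moebius_le_one
    have e4 : (moebius d : ℝ) * G L d - 68 * 10 ^ (L - 1) * ((moebius d : ℝ) / (d : ℝ) ^ 2) =
        (moebius d : ℝ) * (G L d - 68 * 10 ^ (L - 1) / (d : ℝ) ^ 2) := by ring
    rw [e4, abs_mul]
    exact mul_le_of_le_one_left (abs_nonneg _) this
  have e5 : |∑ d ∈ (Ico 1 z).filter (fun d => d.Coprime 10), (moebius d : ℝ) / (d : ℝ) ^ 2 -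
      25 / (3 * Real.pi ^ 2)| ≤ 2 / (z : ℝ) := by
    have h4 := hC (z - 1) (by omega)
    have h5 : Icc 1 (z - 1) = Ico 1 z := by
      ext x; rw [mem_Icc, mem_Ico]; omega
    rw [h5] at h4
    refine h4.trans ?_
    have h6 : ((z - 1 : ℕ) : ℝ) = z - 1 := by rw [Nat.cast_sub (by omega)]; simp
    have h7 : (10 : ℝ) ≤ z := by exact_mod_cast hz2
    rw [h6, div_le_div_iff₀ (by linarith) (by linarith)]
    linarith
  have hpow : (10 : ℝ) ^ L = 10 * 10 ^ (L - 1) := by
    rw [← pow_succ']; congr 1; omega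
  have e6 : |68 * (10 : ℝ) ^ (L - 1) * ∑ d ∈ (Ico 1 z).filter (fun d => d.Coprime 10),
      (moebius d : ℝ) / (d : ℝ) ^ 2 - 170 / (3 * Real.pi ^ 2) * 10 ^ L| ≤
      10 ^ L / (L : ℝ) ^ (A + 1) := by
    have e7 : 68 * (10 : ℝ) ^ (L - 1) * ∑ d ∈ (Ico 1 z).filter (fun d => d.Coprime 10),
        (moebius d : ℝ) / (d : ℝ) ^ 2 - 170 / (3 * Real.pi ^ 2) * 10 ^ L =
        68 * (10 : ℝ) ^ (L - 1) * (∑ d ∈ (Ico 1 z).filter (fun d => d.Coprime 10),
        (moebius d : ℝ) / (d : ℝ) ^ 2 - 25 / (3 * Real.pi ^ 2)) := by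
      rw [hpow]; ring
    rw [e7, abs_mul, abs_of_pos (by positivity)]
    refine le_trans ?_ h3
    calc 68 * (10 : ℝ) ^ (L - 1) * _ ≤ 68 * (10 : ℝ) ^ (L - 1) * (2 / (z : ℝ)) := by gcongr
      _ = 13.6 * 10 ^ L / z := by rw [hpow]; ring
      _ ≤ 14 * 10 ^ L / z := by
          apply div_le_div_of_nonneg_right _ (Nat.cast_nonneg _)
          have : (0 : ℝ) < 10 ^ L := by positivity
          linarith
      _ ≤ 14 * (L + 1) * 10 ^ L / 10 ^ (L / 120) := by
          rw [hz]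
          push_cast
          apply div_le_div₀ (by positivity) _ (by positivity)
          · exact pow_le_pow_right₀ (by norm_num) (by omega)
          · have : (0 : ℝ) < 10 ^ L := by positivity
            nlinarith
  have e8 : 3 * (10 ^ L / (L : ℝ) ^ (A + 1)) ≤ 10 ^ L / (L : ℝ) ^ A := by
    rw [pow_succ, ← mul_div_assoc, div_le_div_iff₀ (by positivity) (by positivity)]
    have : (3 : ℝ) * (10 ^ L * (L : ℝ) ^ A) ≤ L * (10 ^ L * (L : ℝ) ^ A) :=
      mul_le_mul_of_nonneg_right (by linarith) (by positivity)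
    linarith
  rw [e2]
  rw [abs_le] at e1 e3 e6 ⊢
  constructor <;> linarith [e1.1, e1.2, e3.1, e3.2, e6.1, e6.2]

end Pool.Agent.Helper94.SQ
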